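import Pool.Agent.Lib.MP_779bc2_co.I.Prs

/-! # Row I-I1: the independence number of the template -/

set_option autoImplicit false

namespace Pool.Agent.Lib.MP_779bc2_co

open Finset

/-- Suppose `T ⊆ V0`, `a < |T|`, and any two different `u, w ∈ T` are not `Ms`-related and not adjacent. Choose an injection `f : Fin (a+1) → W` with values in `T`
(`Finset.exists_subset_card_eq`, `Finset.equivFin` or `Finset.orderEmbOfFin`), `A r = clu q (q (f r))`. For `r ≠ s`: `Ms` fails, the clusters are good, so `q (f r) ≠ q (f s)` and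
`¬ Irr`; the clusters are disjoint. Not adjacent in `Rg κ` and `G κ` symmetric (`prs_comm_of_symm`): `prs (G κ) < δ0 |A r| |A s|` for both `κ`, so
`prs (red or blue) ≤ 2 δ0 |A r| |A s| ≤ d1 |A r| |A s|` (`prs_or_le`, `prs_mono`). Good clusters satisfy `η N ≤ K |V_i|`, so `n1 ≤ |V_i|`. Contradiction to `hsb`. -/
theorem ind_tpl {W : Type} [Fintype W] [DecidableEq W] {K : ℕ} (p : Pm) (a : ℕ) (d1 : ℝ) (n1 : ℕ)
    (χ : W → W → Col p.s p.t) (hsym : ∀ u v, χ u v = χ v u)
    (hsb : ∀ A : Fin (a + 1) → Finset W, (∀ i j, i ≠ j → Disjoint (A i) (A j)) → (∀ i, n1 ≤ (A i).card) →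
      (∀ i j, i ≠ j → prs (fun u w => ∃ κ, χ u w = .long κ) (A i) (A j) ≤ d1 * ((A i).card * (A j).card)) → False)
    (q : W → Fin K) (ε γ η δ0 : ℝ) (hK : 0 < K) (hδ : 2 * δ0 ≤ d1) (hn : (K * n1 : ℝ) ≤ η * Fintype.card W) :
    IndLe (Tg (fun κ u w => χ u w = .long κ) q ε γ η δ0 false) (Tg (fun κ u w => χ u w = .long κ) q ε γ η δ0 true)
      (Ms (fun κ u w => χ u w = .long κ) q ε γ η) (V0 (fun κ u w => χ u w = .long κ) q ε γ η) a := by
  classical
  intro T hT hcard
  by_contra hno
  push Not at hno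
  obtain ⟨T', hT'T, hT'c⟩ := Finset.exists_subset_card_eq (Nat.succ_le_of_lt hcard)
  have hT'c' : T'.card = a + 1 := hT'c
  let f : Fin (a + 1) → W := fun r => ((T'.equivFinOfCardEq hT'c').symm r : W)
  have hfT' : ∀ r, f r ∈ T' := fun r => ((T'.equivFinOfCardEq hT'c').symm r).2
  have hfT : ∀ r, f r ∈ T := fun r => hT'T (hfT' r)
  have hfinj : ∀ r s, r ≠ s → f r ≠ f s := by
    intro r s hrs h
    apply hrs
    have h1 : (T'.equivFinOfCardEq hT'c').symm r = (T'.equivFinOfCardEq hT'c').symm s := Subtype.ext h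
    exact (T'.equivFinOfCardEq hT'c').symm.injective h1
  have hgood : ∀ r, Good (fun κ u w => χ u w = .long κ) q ε γ η (q (f r)) := by
    intro r
    have := hT (hfT r)
    unfold V0 at this
    exact (mem_filter.mp this).2
  have hMs : ∀ r s, r ≠ s → ¬ Ms (fun κ u w => χ u w = .long κ) q ε γ η (f r) (f s) := fun r s hrs =>
    (hno (f r) (hfT r) (f s) (hfT s) (hfinj r s hrs)).1
  have hq : ∀ r s, r ≠ s → q (f r) ≠ q (f s) := fun r s hrs h =>
    hMs r s hrs (Or.inr ⟨hgood r, hgood s, Or.inl h⟩)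
  have hirr : ∀ r s, r ≠ s → ¬ Irr (fun κ u w => χ u w = .long κ) q ε (q (f r)) (q (f s)) := fun r s hrs h =>
    hMs r s hrs (Or.inr ⟨hgood r, hgood s, Or.inr h⟩)
  have hnadj : ∀ κ r s, r ≠ s → ¬ (Tg (fun κ u w => χ u w = .long κ) q ε γ η δ0 κ).Adj (f r) (f s) := by
    intro κ r s hrs
    have h := hno (f r) (hfT r) (f s) (hfT s) (hfinj r s hrs)
    cases κ
    · exact h.2.1
    · exact h.2.2
  have hdens : ∀ κ r s, r ≠ s → prs (fun u w => χ u w = .long κ) (clu q (q (f r))) (clu q (q (f s))) ≤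
      δ0 * ((clu q (q (f r))).card * (clu q (q (f s))).card) := by
    intro κ r s hrs
    by_contra hlt
    have hlt' := not_le.mp hlt
    apply hnadj κ r s hrs
    refine ⟨hq r s hrs, hgood r, hgood s, hirr r s hrs, hlt'.le, ?_⟩
    have hcomm : prs (fun u w => χ u w = .long κ) (clu q (q (f s))) (clu q (q (f r))) =
        prs (fun u w => χ u w = .long κ) (clu q (q (f r))) (clu q (q (f s))) :=
      prs_comm_of_symm (G := fun u w => χ u w = .long κ) (fun u w h => by
        show χ w u = .long κ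
        rw [hsym w u]
        exact h) _ _
    show δ0 * ((clu q (q (f s))).card * (clu q (q (f r))).card) ≤
      prs (fun u w => χ u w = .long κ) (clu q (q (f s))) (clu q (q (f r)))
    rw [hcomm, mul_comm ((clu q (q (f s))).card : ℝ)]
    exact hlt'.le
  refine hsb (fun r => clu q (q (f r))) ?_ ?_ ?_
  · intro r s hrs
    rw [Finset.disjoint_left]
    intro w hw hw'
    rw [mem_clu] at hw hw'
    exact hq r s hrs (hw.symm.trans hw')
  · intro r
    have h1 := (hgood r).1
    have h2 : (K : ℝ) * n1 ≤ K * (clu q (q (f r))).card := hn.trans h1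
    have hK' : (0 : ℝ) < K := by exact_mod_cast hK
    have h3 : (n1 : ℝ) ≤ (clu q (q (f r))).card := le_of_mul_le_mul_left h2 hK'
    exact_mod_cast h3
  · intro r s hrs
    have h1 : prs (fun u w => ∃ κ, χ u w = .long κ) (clu q (q (f r))) (clu q (q (f s))) ≤
        prs (fun u w => χ u w = .long false ∨ χ u w = .long true) (clu q (q (f r))) (clu q (q (f s))) := by
      refine prs_mono ?_
      rintro u - w - ⟨κ, h⟩
      cases κ
      · exact Or.inl h
      · exact Or.inr h
    have h2 := prs_or_le (fun u w => χ u w = .long false) (fun u w => χ u w = .long true)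
      (clu q (q (f r))) (clu q (q (f s)))
    have h3 := hdens false r s hrs
    have h4 := hdens true r s hrs
    have h5 : (0 : ℝ) ≤ (clu q (q (f r))).card * (clu q (q (f s))).card := by positivity
    have h6 : 2 * δ0 * ((clu q (q (f r))).card * (clu q (q (f s))).card : ℝ) ≤
        d1 * ((clu q (q (f r))).card * (clu q (q (f s))).card) := mul_le_mul_of_nonneg_right hδ h5
    show prs (fun u w => ∃ κ, χ u w = .long κ) (clu q (q (f r))) (clu q (q (f s))) ≤
      d1 * ((clu q (q (f r))).card * (clu q (q (f s))).card)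
    linarith

end Pool.Agent.Lib.MP_779bc2_co
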