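import Pool.Agent.Lib.MP_779bc2_co.I.Prs

/-! # Row I-T1: `V0` is large, the relation `Ms` has small degrees -/

set_option autoImplicit false

namespace Pool.Agent.Lib.MP_779bc2_co

open Finset

variable {W : Type} [Fintype W] {K : ℕ}

/-- Let `N = card W`. A vertex `u` outside `V0` satisfies (a) `K |V_{q u}| < η N`, or (b) `γ N < #{w : Irr (q u) (q w)}`.
(a): at most `∑_{i : K |V_i| < η N} |V_i| ≤ K (η N / K) = η N` vertices (`K > 0`). (b): the number of the ordered pairs `(u, w)` with `Irr (q u) (q w)` is at most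
`irw (G false) + irw (G true)` plus the same for the reversed pairs (`prs_comm`, `prs_or_le`), so at most `4 ε N²`; hence (number of such `u`) `· γ N ≤ 4 ε N²`. -/
theorem V0_big (G : Bool → W → W → Prop) (q : W → Fin K) (ε γ η : ℝ) (hK : 0 < K) (hγ : 0 < γ) (hη : 0 ≤ η)
    (hirr : ∀ κ, irw (G κ) ε q ≤ ε * (Fintype.card W : ℝ) ^ 2) :
    (1 - η - 4 * ε / γ) * Fintype.card W ≤ (V0 G q ε γ η).card := by
  classical
  set N : ℝ := (Fintype.card W : ℝ) with hN
  have hN0 : 0 ≤ N := Nat.cast_nonneg _
  rcases hN0.eq_or_lt with h0 | h0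
  · rw [← h0, mul_zero]
    exact Nat.cast_nonneg _
  set B1 : Finset W := univ.filter (fun u => (K : ℝ) * (clu q (q u)).card < η * N) with hB1
  set B2 : Finset W := univ.filter (fun u => γ * N < ((univ.filter (fun w => Irr G q ε (q u) (q w))).card : ℝ)) with hB2
  have hcov : (univ : Finset W) ⊆ V0 G q ε γ η ∪ (B1 ∪ B2) := by
    intro u _
    by_cases hg : Good G q ε γ η (q u)
    · exact Finset.mem_union_left _ (Finset.mem_filter.2 ⟨Finset.mem_univ _, hg⟩)
    · refine Finset.mem_union_right _ ?_
      rw [Good, not_and_or, not_le, not_le] at hg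
      rcases hg with hg | hg
      · exact Finset.mem_union_left _ (Finset.mem_filter.2 ⟨Finset.mem_univ _, hg⟩)
      · refine Finset.mem_union_right _ (Finset.mem_filter.2 ⟨Finset.mem_univ _, ?_⟩)
        convert hg using 3
  have hcard : N ≤ (V0 G q ε γ η).card + (B1.card + B2.card) := by
    have h1 := Finset.card_le_card hcov
    have h2 := Finset.card_union_le (V0 G q ε γ η) (B1 ∪ B2)
    have h3 := Finset.card_union_le B1 B2
    rw [Finset.card_univ] at h1
    have : Fintype.card W ≤ (V0 G q ε γ η).card + (B1.card + B2.card) := by omega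
    rw [hN]
    exact_mod_cast this
  have hK' : (0 : ℝ) < K := by exact_mod_cast hK
  have hb1 : (B1.card : ℝ) ≤ η * N := by
    have h1 : (B1.card : ℝ) = ∑ i : Fin K, if (K : ℝ) * (clu q i).card < η * N then ((clu q i).card : ℝ) else 0 := by
      have h2 : B1.card = ∑ i : Fin K, (B1.filter (fun u => q u = i)).card :=
        Finset.card_eq_sum_card_fiberwise (f := q) (t := univ) (fun _ _ => Finset.mem_coe.2 (Finset.mem_univ _))
      rw [h2]
      push_cast
      refine Finset.sum_congr rfl fun i _ => ?_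
      split_ifs with hi
      · congr 2
        ext u
        rw [hB1, Finset.mem_filter, Finset.mem_filter, mem_clu]
        constructor
        · rintro ⟨_, h⟩; exact h
        · rintro h; exact ⟨⟨Finset.mem_univ _, by rw [h]; exact hi⟩, h⟩
      · have h3 : B1.filter (fun u => q u = i) = ∅ := by
          rw [Finset.filter_eq_empty_iff]
          intro u hu h
          have h4 := (Finset.mem_filter.1 hu).2
          rw [h] at h4
          exact hi h4
        rw [h3]; simp
    have h5 : (K : ℝ) * B1.card ≤ K * (η * N) := by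
      rw [h1, Finset.mul_sum]
      calc ∑ i : Fin K, (K : ℝ) * (if (K : ℝ) * (clu q i).card < η * N then ((clu q i).card : ℝ) else 0)
          ≤ ∑ _i : Fin K, η * N := by
            refine Finset.sum_le_sum fun i _ => ?_
            split_ifs with hi
            · exact hi.le
            · rw [mul_zero]; positivity
        _ = K * (η * N) := by rw [Finset.sum_const, Finset.card_univ, Fintype.card_fin, nsmul_eq_mul]
    exact le_of_mul_le_mul_left h5 hK'
  have hb2 : (B2.card : ℝ) * (γ * N) ≤ 4 * ε * N ^ 2 := by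
    have h1 : (B2.card : ℝ) * (γ * N) ≤ prs (fun u w => Irr G q ε (q u) (q w)) univ univ := by
      rw [prs_eq_sum_card]
      calc (B2.card : ℝ) * (γ * N) = ∑ _u ∈ B2, γ * N := by rw [Finset.sum_const, nsmul_eq_mul]
        _ ≤ ∑ u ∈ B2, ((univ.filter (fun w => Irr G q ε (q u) (q w))).card : ℝ) := by
            refine Finset.sum_le_sum fun u hu => ?_
            exact (Finset.mem_filter.1 hu).2.le
        _ ≤ ∑ u, ((univ.filter (fun w => Irr G q ε (q u) (q w))).card : ℝ) :=
            Finset.sum_le_sum_of_subset_of_nonneg (Finset.subset_univ _) (fun _ _ _ => Nat.cast_nonneg _)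
        _ = _ := by
            refine Finset.sum_congr rfl fun u _ => ?_
            congr 2
    have h2 : ∀ κ, prs (fun u w => ¬ Reg (G κ) ε (clu q (q u)) (clu q (q w)) ∨ ¬ Reg (G κ) ε (clu q (q w)) (clu q (q u)))
        univ univ ≤ 2 * (ε * N ^ 2) := by
      intro κ
      refine (prs_or_le _ _ _ _).trans ?_
      have h3 : prs (fun u w => ¬ Reg (G κ) ε (clu q (q w)) (clu q (q u))) univ univ = irw (G κ) ε q := by
        rw [irw, prs_comm]
      rw [h3]
      have h4 : prs (fun u w => ¬ Reg (G κ) ε (clu q (q u)) (clu q (q w))) univ univ = irw (G κ) ε q := rfl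
      rw [h4]
      have := hirr κ
      linarith
    have h5 : prs (fun u w => Irr G q ε (q u) (q w)) univ univ ≤
        prs (fun u w => (¬ Reg (G false) ε (clu q (q u)) (clu q (q w)) ∨ ¬ Reg (G false) ε (clu q (q w)) (clu q (q u))) ∨
          (¬ Reg (G true) ε (clu q (q u)) (clu q (q w)) ∨ ¬ Reg (G true) ε (clu q (q w)) (clu q (q u)))) univ univ := by
      refine prs_mono fun u _ w _ h => ?_
      obtain ⟨κ, h⟩ := h
      cases κ
      · exact Or.inl h
      · exact Or.inr h
    have h6 := prs_or_le (fun u w => ¬ Reg (G false) ε (clu q (q u)) (clu q (q w)) ∨ ¬ Reg (G false) ε (clu q (q w)) (clu q (q u)))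
      (fun u w => ¬ Reg (G true) ε (clu q (q u)) (clu q (q w)) ∨ ¬ Reg (G true) ε (clu q (q w)) (clu q (q u))) univ univ
    have h7 := h2 false
    have h8 := h2 true
    linarith
  have hb2' : (B2.card : ℝ) ≤ 4 * ε / γ * N := by
    have h1 : (B2.card : ℝ) * γ * N ≤ (4 * ε * N) * N := by nlinarith
    have h2 : (B2.card : ℝ) * γ ≤ 4 * ε * N := le_of_mul_le_mul_right h1 h0
    rw [div_mul_eq_mul_div, le_div_iff₀ hγ]
    exact h2
  have h9 : (1 - η - 4 * ε / γ) * N = N - η * N - 4 * ε / γ * N := by ring
  rw [h9]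
  linarith

open Classical in
/-- If `Ms v w` then `w ∈ clu q (q v)` or (`v` in a good cluster and `Irr (q v) (q w)`); in a good cluster there are at most `γ N` such `w`. -/
theorem Ms_card (G : Bool → W → W → Prop) (q : W → Fin K) (ε γ η : ℝ) (hγ : 0 ≤ γ)
    (hsmall : ∀ i, ((clu q i).card : ℝ) ≤ ε * Fintype.card W + 1) (v : W) :
    ((univ.filter (fun w => Ms G q ε γ η v w)).card : ℝ) ≤ (ε + γ) * Fintype.card W + 1 := by
  have hs := hsmall (q v)
  have hN0 : (0 : ℝ) ≤ (Fintype.card W : ℝ) := Nat.cast_nonneg _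
  by_cases hg : Good G q ε γ η (q v)
  · have hsub : univ.filter (fun w => Ms G q ε γ η v w) ⊆
        clu q (q v) ∪ univ.filter (fun w => Irr G q ε (q v) (q w)) := by
      intro w hw
      rcases (Finset.mem_filter.1 hw).2 with h | ⟨_, _, h | h⟩
      · exact Finset.mem_union_left _ (mem_clu.2 (by rw [h]))
      · exact Finset.mem_union_left _ (mem_clu.2 h.symm)
      · exact Finset.mem_union_right _ (Finset.mem_filter.2 ⟨Finset.mem_univ _, h⟩)
    have h1 := (Finset.card_le_card hsub).trans (Finset.card_union_le _ _)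
    have h2 : ((univ.filter (fun w => Ms G q ε γ η v w)).card : ℝ) ≤
        (clu q (q v)).card + (univ.filter (fun w => Irr G q ε (q v) (q w))).card := by exact_mod_cast h1
    have h3 := hg.2
    have h4 : (((univ.filter (fun w => Irr G q ε (q v) (q w))).card : ℕ) : ℝ) ≤ γ * Fintype.card W := by
      convert h3 using 3
    nlinarith
  · have hsub : univ.filter (fun w => Ms G q ε γ η v w) ⊆ clu q (q v) := by
      intro w hw
      rcases (Finset.mem_filter.1 hw).2 with h | ⟨h, _, _⟩
      · exact mem_clu.2 (by rw [h])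
      · exact absurd h hg
    have h1 : ((univ.filter (fun w => Ms G q ε γ η v w)).card : ℝ) ≤ (clu q (q v)).card := by
      exact_mod_cast Finset.card_le_card hsub
    nlinarith

theorem Ms_refl (G : Bool → W → W → Prop) (q : W → Fin K) (ε γ η : ℝ) (v : W) : Ms G q ε γ η v v := Or.inl rfl

theorem Ms_symm (G : Bool → W → W → Prop) (q : W → Fin K) (ε γ η : ℝ) (u v : W) (h : Ms G q ε γ η u v) :
    Ms G q ε γ η v u := by
  rcases h with h | ⟨h1, h2, h3⟩
  · exact Or.inl h.symm
  · refine Or.inr ⟨h2, h1, ?_⟩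
    rcases h3 with h3 | h3
    · exact Or.inl h3.symm
    · exact Or.inr h3.symm

end Pool.Agent.Lib.MP_779bc2_co
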