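import Pool.Agent.Lib.MP_779bc2_co.I.Prs

/-! # Row I-T2: densities outside the template; the degree property of the reduced graph -/

set_option autoImplicit false

namespace Pool.Agent.Lib.MP_779bc2_co

open Finset

variable {W : Type} [Fintype W] {K : ℕ}

/-- A pair `(u, w) ∈ U1 × U2` of colour `κ` which is neither `Tg`-adjacent nor `Ms`-related: both clusters are good, different, not `Irr`, so (not adjacent in `Rg`, and
`G κ` symmetric: `prs_comm_of_symm`) `prs (G κ) V_i V_j < δ0 |V_i| |V_j|`. The number of all these pairs is at most `∑_{i,j} δ0 |V_i| |V_j| = δ0 N²`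
(`sum_eq_sum_clu`, `sum_card_clu`). Use `idc (G κ) u w ≤ idc (Tg ∨ Ms) u w + (the rest)`. -/
theorem Tg_dens (G : Bool → W → W → Prop) (q : W → Fin K) (ε γ η δ0 : ℝ) (hδ : 0 ≤ δ0)
    (hG : ∀ κ u w, G κ u w → G κ w u) (κ : Bool) (U1 U2 : Finset W) (h1 : U1 ⊆ V0 G q ε γ η)
    (h2 : U2 ⊆ V0 G q ε γ η) :
    prs (G κ) U1 U2 ≤ prs (fun u w => (Tg G q ε γ η δ0 κ).Adj u w ∨ Ms G q ε γ η u w) U1 U2
      + δ0 * (Fintype.card W : ℝ) ^ 2 := by
  classical
  set H : W → W → Prop := fun u w => (Tg G q ε γ η δ0 κ).Adj u w ∨ Ms G q ε γ η u w with hH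
  set E : W → W → Prop := fun u w => G κ u w ∧ ¬ H u w ∧ u ∈ V0 G q ε γ η ∧ w ∈ V0 G q ε γ η with hE
  have e1 : prs (G κ) U1 U2 ≤ prs H U1 U2 + prs E U1 U2 := by
    refine le_trans (prs_mono ?_) (prs_or_le H E U1 U2)
    intro u hu w hw h
    by_cases hh : H u w
    · exact Or.inl hh
    · exact Or.inr ⟨h, hh, h1 hu, h2 hw⟩
  have e2 : prs E U1 U2 ≤ prs E univ univ := prs_mono_set (subset_univ _) (subset_univ _)
  have e3 : prs E univ univ = ∑ i, ∑ j, prs E (clu q i) (clu q j) := by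
    rw [prs_eq_sum, sum_eq_sum_clu q]
    refine sum_congr rfl fun i _ => sum_congr rfl fun j _ => ?_
    rw [prs_eq_sum]
  have e4 : ∀ i j, prs E (clu q i) (clu q j) ≤ δ0 * ((clu q i).card * (clu q j).card) := by
    intro i j
    by_cases hne : ∃ u ∈ clu q i, ∃ w ∈ clu q j, E u w
    · obtain ⟨u, hu, w, hw, hG', hH', hu0, hw0⟩ := hne
      rw [mem_clu] at hu hw
      have gu : Good G q ε γ η i := by
        have := (mem_filter.1 hu0).2
        rwa [hu] at this
      have gw : Good G q ε γ η j := by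
        have := (mem_filter.1 hw0).2
        rwa [hw] at this
      have hT : ¬ (Rg G q ε γ η δ0 κ).Adj i j := by
        intro h
        apply hH'
        left
        show (Rg G q ε γ η δ0 κ).Adj (q u) (q w)
        rw [hu, hw]; exact h
      have hMs : ¬ Ms G q ε γ η u w := fun h => hH' (Or.inr h)
      have hij : i ≠ j := by
        intro h
        exact hMs (Or.inr ⟨hu ▸ gu, hw ▸ gw, Or.inl (by rw [hu, hw, h])⟩)
      have hirr : ¬ Irr G q ε i j := by
        intro h
        exact hMs (Or.inr ⟨hu ▸ gu, hw ▸ gw, Or.inr (by rw [hu, hw]; exact h)⟩)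
      have hlt : prs (G κ) (clu q i) (clu q j) < δ0 * ((clu q i).card * (clu q j).card) := by
        by_contra hcon
        push Not at hcon
        refine hT ⟨hij, gu, gw, hirr, hcon, ?_⟩
        rw [prs_comm_of_symm (hG κ), mul_comm ((clu q j).card : ℝ)]
        exact hcon
      refine le_trans (prs_mono ?_) hlt.le
      intro a _ b _ hab
      exact hab.1
    · push Not at hne
      have : prs E (clu q i) (clu q j) = 0 := by
        rw [prs_eq_sum]
        refine sum_eq_zero fun u hu => sum_eq_zero fun w hw => ?_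
        unfold idc
        rw [if_neg (hne u hu w hw)]
      rw [this]
      positivity
  have e5 : ∑ i, ∑ j, δ0 * (((clu q i).card : ℝ) * (clu q j).card) = δ0 * (Fintype.card W : ℝ) ^ 2 := by
    rw [← sum_card_clu q, sq, sum_mul_sum, mul_sum]
    refine sum_congr rfl fun i _ => ?_
    rw [mul_sum]
  have e6 : prs E univ univ ≤ δ0 * (Fintype.card W : ℝ) ^ 2 := by
    rw [e3, ← e5]
    exact sum_le_sum fun i _ => sum_le_sum fun j _ => e4 i j
  linarith

/-- Let `i`, `j` be adjacent, `B ⊆ V_j`, `|B| ≥ ρ |V_j|`, `A` the set of the `u ∈ V_i` with fewer than `2 σ |V_j| = (δ0 ρ / 2) |V_j|` neighbours in `B`.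
Then `prs A B ≤ |A| (δ0 ρ / 2) |V_j|` (`prs_eq_sum_card`), and by regularity (`¬ Irr`) and density `≥ δ0`
`prs A B ≥ δ0 |A| |B| - ε |V_i| |V_j| ≥ δ0 ρ |A| |V_j| - ε |V_i| |V_j|`. So `(δ0 ρ / 2) |A| ≤ ε |V_i| ≤ ((δ0 ρ)² / 8) |V_i|` (divide by `|V_j| > 0`; if `|V_j| = 0` then
`A = ∅`), that is, `|A| ≤ (δ0 ρ / 4) |V_i|`. -/
theorem DProp_Rg (G : Bool → W → W → Prop) (q : W → Fin K) (ε γ η δ0 ρ : ℝ) (hδ : 0 < δ0) (hρ : 0 < ρ)
    (hε : ε ≤ (δ0 * ρ) ^ 2 / 8) (κ : Bool) :
    DProp (G κ) q (Rg G q ε γ η δ0 κ) (δ0 * ρ / 4) ρ := by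
  classical
  intro i j hadj B hB hBc
  have hirr := hadj.2.2.2.1
  have hden := hadj.2.2.2.2.1
  have hreg : Reg (G κ) ε (clu q i) (clu q j) := by
    by_contra h
    exact hirr ⟨κ, Or.inl h⟩
  set A := (clu q i).filter
    (fun u => ((B.filter (fun w => G κ u w)).card : ℝ) < 2 * (δ0 * ρ / 4) * (clu q j).card) with hA
  have hAi : A ⊆ clu q i := filter_subset _ _
  have hσ : 0 < δ0 * ρ := mul_pos hδ hρ
  rcases A.eq_empty_or_nonempty with h0 | ⟨a, ha⟩
  · rw [h0, card_empty]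
    push_cast
    positivity
  · have hi : (0 : ℝ) < (clu q i).card := by exact_mod_cast card_pos.2 ⟨a, hAi ha⟩
    have hj : (0 : ℝ) < (clu q j).card := by
      have h2 := (mem_filter.1 ha).2
      have h3 : (0 : ℝ) ≤ ((B.filter (fun w => G κ a w)).card : ℝ) := by positivity
      have h4 : 0 < 2 * (δ0 * ρ / 4) * ((clu q j).card : ℝ) := lt_of_le_of_lt h3 h2
      by_contra hcon
      push Not at hcon
      nlinarith
    have hApos : (0 : ℝ) < A.card := by exact_mod_cast card_pos.2 ⟨a, ha⟩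
    have h1 := (abs_le.1 (hreg A hAi B hB)).1
    have h2 : prs (G κ) A B ≤ A.card * (2 * (δ0 * ρ / 4) * (clu q j).card) := by
      rw [prs_eq_sum_card]
      have : ∑ u ∈ A, ((B.filter (fun w => G κ u w)).card : ℝ) ≤
          ∑ _u ∈ A, 2 * (δ0 * ρ / 4) * ((clu q j).card : ℝ) :=
        sum_le_sum fun u hu => (mem_filter.1 hu).2.le
      rwa [sum_const, nsmul_eq_mul] at this
    have h3 : δ0 ≤ prs (G κ) (clu q i) (clu q j) / ((clu q i).card * (clu q j).card) := by
      rw [le_div_iff₀ (mul_pos hi hj)]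
      exact hden
    have h4 : δ0 * ((A.card : ℝ) * (ρ * (clu q j).card)) ≤
        prs (G κ) (clu q i) (clu q j) / ((clu q i).card * (clu q j).card) * (A.card * B.card) := by
      apply mul_le_mul h3 (mul_le_mul_of_nonneg_left hBc hApos.le) (by positivity)
      exact le_trans hδ.le h3
    -- (δ0 ρ / 2) |A| |V_j| ≤ ε |V_i| |V_j|
    have h5 : (δ0 * ρ / 2 * A.card) * (clu q j).card ≤ (ε * (clu q i).card) * (clu q j).card := by
      nlinarith
    have h6 : δ0 * ρ / 2 * A.card ≤ ε * (clu q i).card := le_of_mul_le_mul_right h5 hj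
    have h7 : ε * (clu q i).card ≤ (δ0 * ρ) ^ 2 / 8 * (clu q i).card :=
      mul_le_mul_of_nonneg_right hε hi.le
    have h8 : (δ0 * ρ) * (A.card : ℝ) ≤ (δ0 * ρ) * (δ0 * ρ / 4 * (clu q i).card) := by nlinarith
    exact le_of_mul_le_mul_left h8 hσ

end Pool.Agent.Lib.MP_779bc2_co
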