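import Pool.Agent.Lib.MP_779bc2_co.X1Blocks

/-! # MP_779bc2_co: `sparse_blocks` is proved in `X1Blocks` -/
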