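import Pool.Agent.Lib.MP_779bc2_co.I.C1Cycle

/-! # Row I-Z1: large matchings give cycles -/

set_option autoImplicit false

namespace Pool.Agent.Lib.MP_779bc2_co

open Finset

/-- `C` = the constant of `long_cycle K` plus `1`. `T = R.comap q` is the blow-up of `R`. `D` is nonempty (`C ≤ θ |D|`, `C > 0`): take `u0 ∈ D`, `i = q u0`, `i' = q (φ u0)`, adjacent.
Some vertex `v ∈ V_{i'}` has at least `3 ρ |V_i|` neighbours in `V_i`: otherwise `prs G V_{i'} V_i < 3 ρ |V_{i'}| |V_i|` (`prs_eq_sum_card`; `V_{i'} ∋ φ u0` is nonempty). Let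
`S0 = S1` be the set of these neighbours and apply `long_cycle` with `j = i`. Reachability in `T` gives reachability in `R` (map walks along `q`:
`SimpleGraph.Walk.map` with the homomorphism `q : T →g R`). Parity: if `L` is even take the walk `nil`; otherwise conjugate the odd closed walk at `q u` by a walk from `i` to
`q u`. -/
theorem cyc_of_matching (K : ℕ) : ∃ C : ℕ, ∀ (W : Type) [Fintype W] [DecidableEq W] (G : W → W → Prop)
    (_ : ∀ u w, G u w → G w u) (q : W → Fin K)
    (R : SimpleGraph (Fin K)) (σ ρ θ : ℝ), DProp G q R σ ρ → 0 < σ → σ < ρ → 0 ≤ θ → θ ≤ 1 - 4 * ρ →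
    (∀ i j, R.Adj i j → (C : ℝ) ≤ ρ * (clu q i).card) →
    (∀ i j, R.Adj i j → 3 * ρ * ((clu q i).card * (clu q j).card) ≤ prs G (clu q i) (clu q j)) →
    ∀ (D : Finset W) (φ : W → W), Set.InjOn φ D → (∀ u ∈ D, (R.comap q).Adj u (φ u)) →
    (∀ u ∈ D, ∀ w ∈ D, (R.comap q).Reachable u w) →
    ∀ L : ℕ, C ≤ L → (L : ℝ) + C ≤ θ * D.card →
      (Even L ∨ ∃ u ∈ D, ∃ w : (R.comap q).Walk u u, Odd w.length) → HasCyc G (L + 2) := by
  classical
  obtain ⟨C, hC⟩ := long_cycle K
  refine ⟨C + 1, ?_⟩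
  intro W _ _ G hG q R σ ρ θ hD hσ hσρ hθ hθρ hbig hprs D φ hφ hadj hreach L hL hLD hpar
  have hDne : D.Nonempty := by
    rw [Finset.nonempty_iff_ne_empty]
    rintro rfl
    rw [Finset.card_empty] at hLD
    push_cast at hLD
    rw [mul_zero] at hLD
    have h1 : (0 : ℝ) ≤ L := Nat.cast_nonneg L
    have h2 : (0 : ℝ) ≤ C := Nat.cast_nonneg C
    linarith
  obtain ⟨u0, hu0⟩ := hDne
  let f : R.comap q →g R := ⟨q, fun h => h⟩
  have hii' : R.Adj (q u0) (q (φ u0)) := hadj u0 hu0
  have hex : ∃ v ∈ clu q (q (φ u0)), 3 * ρ * (clu q (q u0)).card ≤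
      (((clu q (q u0)).filter (fun w => G v w)).card : ℝ) := by
    by_contra hcon
    push Not at hcon
    have h1 := hprs _ _ hii'.symm
    rw [prs_eq_sum_card] at h1
    have h2 : ∑ v ∈ clu q (q (φ u0)), (((clu q (q u0)).filter (fun w => G v w)).card : ℝ) <
        ∑ v ∈ clu q (q (φ u0)), 3 * ρ * ((clu q (q u0)).card : ℝ) :=
      Finset.sum_lt_sum_of_nonempty ⟨φ u0, mem_clu_self q (φ u0)⟩ fun v hv => hcon v hv
    rw [Finset.sum_const, nsmul_eq_mul] at h2
    have h3 : ((clu q (q (φ u0))).card : ℝ) * (3 * ρ * ((clu q (q u0)).card : ℝ)) =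
        3 * ρ * ((clu q (q (φ u0))).card * (clu q (q u0)).card) := by ring
    rw [h3] at h2
    linarith
  obtain ⟨v, -, hv⟩ := hex
  have hwalk : ∃ w : R.Walk (q u0) (q u0), w.length % 2 = L % 2 := by
    by_cases hLe : Even L
    · refine ⟨SimpleGraph.Walk.nil, ?_⟩
      rw [Nat.even_iff] at hLe
      simp [hLe]
    · rcases hpar with h | ⟨u, hu, w, hw⟩
      · exact absurd h hLe
      · obtain ⟨p⟩ := hreach u0 hu0 u hu
        have hodd : Odd (p.append (w.append p.reverse)).length := by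
          rw [SimpleGraph.Walk.length_append, SimpleGraph.Walk.length_append,
            SimpleGraph.Walk.length_reverse]
          obtain ⟨t, ht⟩ := hw
          exact ⟨p.length + t, by omega⟩
        refine ⟨(p.append (w.append p.reverse)).map f, ?_⟩
        rw [SimpleGraph.Walk.length_map, Nat.odd_iff.mp hodd]
        rw [Nat.not_even_iff] at hLe
        exact hLe.symm
  refine hC W G q R σ ρ θ hD hσ hσρ hθ hθρ ?_ D φ hφ hadj (q u0) (q u0) ?_ L ?_ ?_ hwalk v
    ((clu q (q u0)).filter (fun w => G v w)) ((clu q (q u0)).filter (fun w => G v w))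
    (Finset.filter_subset _ _) (Finset.filter_subset _ _) ?_ ?_ hv hv
  · intro i j hij
    have := hbig i j hij
    push_cast at this
    linarith
  · intro u hu
    obtain ⟨p⟩ := hreach u0 hu0 u hu
    exact ⟨p.map f⟩
  · omega
  · push_cast at hLD
    linarith
  · intro x hx
    exact (Finset.mem_filter.mp hx).2
  · intro x hx
    exact hG _ _ (Finset.mem_filter.mp hx).2

end Pool.Agent.Lib.MP_779bc2_co
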