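import Pool.Agent.Lib.MP_779bc2_co.I.C1Cycle

/-! # Row I-Z2: vertices attached to both sides of a component give odd cycles -/

set_option autoImplicit false

namespace Pool.Agent.Lib.MP_779bc2_co

open Finset

open Classical in
theorem z2_pick {K : ℕ} {W : Type} [Fintype W] [Nonempty W] (P : W → Prop) (q : W → Fin K)
    {ρ : ℝ} (hρ : 0 < ρ) (U : Finset W)
    (h : 3 * ρ * Fintype.card W ≤ ((U.filter P).card : ℝ)) :
    ∃ i : Fin K, ∃ S : Finset W, S ⊆ clu q i ∧ (∀ x ∈ S, P x ∧ x ∈ U) ∧ S.Nonempty ∧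
      3 * ρ * (clu q i).card ≤ S.card := by
  by_contra hcon
  push Not at hcon
  have hS : ∀ i, ((U.filter P).filter (fun w => q w = i)) ⊆ clu q i := by
    intro i x hx
    rw [mem_clu]
    exact (Finset.mem_filter.1 hx).2
  have hle : ∀ i ∈ (univ : Finset (Fin K)), (((U.filter P).filter (fun w => q w = i)).card : ℝ) ≤
      3 * ρ * (clu q i).card := by
    intro i _
    by_cases hne : ((U.filter P).filter (fun w => q w = i)).Nonempty
    · refine (hcon i _ (hS i) ?_ hne).le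
      intro x hx
      have := (Finset.mem_filter.1 hx).1
      rw [Finset.mem_filter] at this
      exact ⟨this.2, this.1⟩
    · rw [Finset.not_nonempty_iff_eq_empty] at hne
      rw [hne]
      simp only [Finset.card_empty, Nat.cast_zero]
      positivity
  have hpos : 0 < ((U.filter P).card : ℝ) := by
    have : (0 : ℝ) < Fintype.card W := by exact_mod_cast Fintype.card_pos
    have := mul_pos (mul_pos (by norm_num : (0 : ℝ) < 3) hρ) this
    linarith
  have hne : (U.filter P).Nonempty := by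
    rw [← Finset.card_pos]
    exact_mod_cast hpos
  obtain ⟨x, hx⟩ := hne
  have hlt : ∑ i : Fin K, (((U.filter P).filter (fun w => q w = i)).card : ℝ) <
      ∑ i : Fin K, 3 * ρ * ((clu q i).card : ℝ) := by
    refine Finset.sum_lt_sum hle ⟨q x, Finset.mem_univ _, ?_⟩
    refine hcon (q x) _ (hS (q x)) ?_ ⟨x, ?_⟩
    · intro y hy
      have := (Finset.mem_filter.1 hy).1
      rw [Finset.mem_filter] at this
      exact ⟨this.2, this.1⟩
    · rw [Finset.mem_filter]
      exact ⟨hx, rfl⟩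
  rw [← Finset.mul_sum, sum_card_clu] at hlt
  have hsum : ∑ i : Fin K, (((U.filter P).filter (fun w => q w = i)).card : ℝ) =
      (U.filter P).card := by
    have := Finset.card_eq_sum_card_fiberwise (s := U.filter P) (t := (univ : Finset (Fin K)))
      (f := q) (fun _ _ => Finset.mem_coe.2 (Finset.mem_univ _))
    rw [this]
    push_cast
    rfl
  rw [hsum] at hlt
  linarith

open Classical in
/-- `C` = the constant of `long_cycle K` plus `1`. `T = R.comap q`. Because `∑_i |V_i| = N`, `∑_i |N(v) ∩ U1 ∩ V_i| ≥ 3 ρ N > 0` there is a nonempty cluster `i` with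
`|N(v) ∩ U1 ∩ V_i| ≥ 3 ρ |V_i|` (otherwise sum over the nonempty clusters); call this set `S0`, it is nonempty; take `u ∈ S0`. The same for `U2`: `j`, `S1`, `u'`.
The odd walk from `u` to `u'` in `T` gives (image under `q`) an odd walk from `i` to `j` in `R`; `L` is odd. The elements of `D` are reachable from `u`. Apply
`long_cycle`. (`D` nonempty is not needed.) -/
theorem cyc_of_attach (K : ℕ) : ∃ C : ℕ, ∀ (W : Type) [Fintype W] [DecidableEq W] [Nonempty W] (G : W → W → Prop)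
    (_ : ∀ u w, G u w → G w u) (q : W → Fin K)
    (R : SimpleGraph (Fin K)) (σ ρ θ : ℝ), DProp G q R σ ρ → 0 < σ → σ < ρ → 0 ≤ θ → θ ≤ 1 - 4 * ρ →
    (∀ i j, R.Adj i j → (C : ℝ) ≤ ρ * (clu q i).card) →
    ∀ (D : Finset W) (φ : W → W), Set.InjOn φ D → (∀ u ∈ D, (R.comap q).Adj u (φ u)) →
    ∀ (v : W) (U1 U2 : Finset W),
    (∀ u ∈ D ∪ U1 ∪ U2, ∀ w ∈ D ∪ U1 ∪ U2, (R.comap q).Reachable u w) →
    (∀ u ∈ U1, ∀ u' ∈ U2, ∃ w : (R.comap q).Walk u u', Odd w.length) →
    3 * ρ * Fintype.card W ≤ ((U1.filter (fun u => G v u)).card : ℝ) →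
    3 * ρ * Fintype.card W ≤ ((U2.filter (fun u => G v u)).card : ℝ) →
    ∀ L : ℕ, C ≤ L → (L : ℝ) + C ≤ θ * D.card → Odd L → HasCyc G (L + 2) := by
  obtain ⟨C, hC⟩ := long_cycle K
  refine ⟨C, ?_⟩
  intro W _ _ _ G hG q R σ ρ θ hD hσ hσρ hθ0 hθ1 hbig D φ hinj hadj v U1 U2 hreach hodd h1 h2 L hL hLD hLo
  have hρ : 0 < ρ := hσ.trans hσρ
  obtain ⟨i, S0, hS0, hS0p, ⟨u, hu⟩, hc0⟩ := z2_pick (fun u => G v u) q hρ U1 h1
  obtain ⟨j, S1, hS1, hS1p, ⟨u', hu'⟩, hc1⟩ := z2_pick (fun u => G v u) q hρ U2 h2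
  have hqi : q u = i := mem_clu.1 (hS0 hu)
  have hqj : q u' = j := mem_clu.1 (hS1 hu')
  let F : R.comap q →g R := ⟨q, fun h => h⟩
  obtain ⟨w, hw⟩ := hodd u (hS0p u hu).2 u' (hS1p u' hu').2
  refine hC W G q R σ ρ θ hD hσ hσρ hθ0 hθ1 hbig D φ hinj hadj i j ?_ L hL hLD ?_ v S0 S1 hS0 hS1
    (fun x hx => (hS0p x hx).1) (fun x hx => hG _ _ (hS1p x hx).1) hc0 hc1
  · intro x hx
    have : (R.comap q).Reachable u x := by
      apply hreach
      · simp only [Finset.mem_union]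
        exact Or.inl (Or.inr (hS0p u hu).2)
      · simp only [Finset.mem_union]
        exact Or.inl (Or.inl hx)
    have := this.map F
    rw [← hqi]
    exact this
  · refine ⟨((w.map F).copy hqi hqj), ?_⟩
    rw [SimpleGraph.Walk.length_copy, SimpleGraph.Walk.length_map, Nat.odd_iff.1 hw,
      Nat.odd_iff.1 hLo]

end Pool.Agent.Lib.MP_779bc2_co
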