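import Pool.Agent.Lib.MP_779bc2_co.I.R5Regularity
import Pool.Agent.Lib.MP_779bc2_co.I.T1Size
import Pool.Agent.Lib.MP_779bc2_co.I.T2Dens
import Pool.Agent.Lib.MP_779bc2_co.I.Z1Match
import Pool.Agent.Lib.MP_779bc2_co.I.Z2Attach
import Pool.Agent.Lib.MP_779bc2_co.I.X1Stub
import Pool.Agent.Lib.MP_779bc2_co.I.I1Ind

/-! # Part I: assembly -/

set_option autoImplicit false

namespace Pool.Agent.Lib.MP_779bc2_co

open Finset

/-- the choice of the parameters -/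
theorem asm_params (δ e d1 : ℝ) (hδ : 0 < δ) (he : 0 < e) (hd : 0 < d1) :
    ∃ (e1 δ0 ρ ε γ η : ℝ), 0 < e1 ∧ e1 ≤ e ∧ e1 ≤ 1 ∧ 0 < δ0 ∧ δ0 ≤ 1 ∧ δ0 ≤ e ∧ 2 * δ0 ≤ d1 ∧ 0 < ρ ∧ 3 * ρ ≤ δ0 ∧
      3 * ρ ≤ δ ∧ 16 * ρ ≤ e1 ∧ 0 < ε ∧ ε ≤ (δ0 * ρ) ^ 2 / 8 ∧ 0 < γ ∧ 0 < η ∧ η + 4 * ε / γ ≤ e ∧
      ε + γ ≤ e1 / 2 := by
  set e1 := min e 1 with he1
  have h1 : 0 < e1 := lt_min he one_pos
  have h1' : e1 ≤ 1 := min_le_right _ _
  have h1e : e1 ≤ e := min_le_left _ _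
  set δ0 := min e1 (d1 / 2) with hδ0
  have h2 : 0 < δ0 := lt_min h1 (by linarith)
  have h2' : δ0 ≤ e1 := min_le_left _ _
  have h2'' : δ0 ≤ d1 / 2 := min_le_right _ _
  set ρ := min (δ0 / 3) (min (δ / 3) (e1 / 16)) with hρ
  have h3 : 0 < ρ := lt_min (by linarith) (lt_min (by linarith) (by linarith))
  have h3' : ρ ≤ δ0 / 3 := min_le_left _ _
  have h3'' : ρ ≤ δ / 3 := (min_le_right _ _).trans (min_le_left _ _)
  have h3''' : ρ ≤ e1 / 16 := (min_le_right _ _).trans (min_le_right _ _)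
  set ε := min ((δ0 * ρ) ^ 2 / 8) (e1 ^ 2 / 64) with hε
  have h4 : 0 < ε := lt_min (by positivity) (by positivity)
  have h4' : ε ≤ (δ0 * ρ) ^ 2 / 8 := min_le_left _ _
  have h4'' : ε ≤ e1 ^ 2 / 64 := min_le_right _ _
  refine ⟨e1, δ0, ρ, ε, e1 / 4, e1 / 4, h1, h1e, h1', h2, h2'.trans h1', h2'.trans h1e, by linarith, h3,
    by linarith, by linarith, by linarith, h4, h4', by linarith, by linarith, ?_, ?_⟩
  · have : 4 * ε / (e1 / 4) ≤ e1 / 4 := by
      rw [div_le_iff₀ (by linarith)]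
      nlinarith
    linarith
  · nlinarith

/-- PART I. -/
theorem exists_tpl' (p : Pm) (a : ℕ) (ha : OddProp p a) (ha1 : 1 ≤ a) (δ e : ℝ) (hδ : 0 < δ) (he : 0 < e) :
    ∃ n0 : ℕ, ∀ n m : ℕ, n0 ≤ n → n0 ≤ m → ∀ (W : Type) [Fintype W] [DecidableEq W],
      n0 ≤ Fintype.card W → ∀ χ : W → W → Col p.s p.t, Free p n m χ →
        ∃ (V0 : Finset W) (T : Bool → SimpleGraph W) (M : W → W → Prop),
          Tpl p n m a χ (Fintype.card W) δ e V0 T M := by
  obtain ⟨d1, hd1, n1, hsb⟩ := sparse_blocks p a ha ha1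
  obtain ⟨e1, δ0, ρ, ε, γ, η, he1, he1e, he11, hδ0, hδ01, hδ0e, hδ0d, hρ, hρδ0, hρδ, hρe, hε, hε', hγ, hη, hVe,
    hMe⟩ := asm_params δ e d1 hδ he hd1
  obtain ⟨K, hK, hreg⟩ := regularity ε hε
  obtain ⟨C1, hZ1⟩ := cyc_of_matching K
  obtain ⟨C2, hZ2⟩ := cyc_of_attach K
  set C := max C1 C2 with hC
  -- the threshold
  obtain ⟨n0, hn0⟩ := exists_nat_ge (max (max (2 / e1) (C + 3)) (max (2 * C / e1) (max (K * C / (η * ρ)) (K * n1 / η))))
  have hb1 : 2 / e1 ≤ (n0 : ℝ) := ((le_max_left _ _).trans (le_max_left _ _)).trans hn0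
  have hb2 : (C : ℝ) + 3 ≤ n0 := ((le_max_right _ _).trans (le_max_left _ _)).trans hn0
  have hb3 : 2 * (C : ℝ) / e1 ≤ n0 := ((le_max_left _ _).trans (le_max_right _ _)).trans hn0
  have hb4 : (K : ℝ) * C / (η * ρ) ≤ n0 :=
    ((le_max_left _ _).trans ((le_max_right _ _).trans (le_max_right _ _))).trans hn0
  have hb5 : (K : ℝ) * n1 / η ≤ n0 :=
    ((le_max_right _ _).trans ((le_max_right _ _).trans (le_max_right _ _))).trans hn0
  have hb2' : C + 3 ≤ n0 := by exact_mod_cast hb2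
  refine ⟨n0, fun n m hn hm W _ _ hW χ hfree => ?_⟩
  have hN0 : (n0 : ℝ) ≤ Fintype.card W := by exact_mod_cast hW
  have hNpos : 0 < Fintype.card W := by omega
  have : Nonempty W := Fintype.card_pos_iff.1 hNpos
  have hNpos' : (0 : ℝ) < Fintype.card W := by exact_mod_cast hNpos
  set G : Bool → W → W → Prop := fun κ u w => χ u w = .long κ with hGdef
  have hG : ∀ κ u w, G κ u w → G κ w u := fun κ u w h => by
    show χ w u = .long κ
    rw [hfree.symm w u]; exact h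
  obtain ⟨q, hq1, hq2⟩ := hreg W G
  have hlen : ∀ κ, n0 ≤ len n m κ := by
    intro κ; unfold len; split <;> assumption
  -- parameters of the cycle lemmas
  have hσ : 0 < δ0 * ρ / 4 := by positivity
  have hσρ : δ0 * ρ / 4 < ρ := by nlinarith
  have hθ : 0 ≤ 1 - 4 * ρ := by linarith
  have hDP : ∀ κ, DProp (G κ) q (Rg G q ε γ η δ0 κ) (δ0 * ρ / 4) ρ := fun κ =>
    DProp_Rg G q ε γ η δ0 ρ hδ0 hρ hε' κ
  have hbig : ∀ κ i j, (Rg G q ε γ η δ0 κ).Adj i j → (C : ℝ) ≤ ρ * (clu q i).card := by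
    intro κ i j hij
    have h1 : η * Fintype.card W ≤ K * (clu q i).card := hij.2.1.1
    have h2 : (K : ℝ) * C ≤ n0 * (η * ρ) := by
      rwa [div_le_iff₀ (by positivity)] at hb4
    have hKpos : (0 : ℝ) < K := by exact_mod_cast hK
    have h3 : (K : ℝ) * C ≤ K * (ρ * (clu q i).card) := by
      calc (K : ℝ) * C ≤ n0 * (η * ρ) := h2
        _ ≤ Fintype.card W * (η * ρ) := by
            apply mul_le_mul_of_nonneg_right hN0; positivity
        _ = ρ * (η * Fintype.card W) := by ring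
        _ ≤ ρ * (K * (clu q i).card) := mul_le_mul_of_nonneg_left h1 hρ.le
        _ = K * (ρ * (clu q i).card) := by ring
    exact le_of_mul_le_mul_left h3 hKpos
  have hdens : ∀ κ i j, (Rg G q ε γ η δ0 κ).Adj i j →
      3 * ρ * ((clu q i).card * (clu q j).card) ≤ prs (G κ) (clu q i) (clu q j) := by
    intro κ i j hij
    refine le_trans ?_ hij.2.2.2.2.1
    apply mul_le_mul_of_nonneg_right hρδ0; positivity
  -- the length
  have hCle1 : (C1 : ℝ) ≤ C := by exact_mod_cast le_max_left _ _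
  have hCle2 : (C2 : ℝ) ≤ C := by exact_mod_cast le_max_right _ _
  have hCn1 : C1 ≤ C := le_max_left _ _
  have hCn2 : C2 ≤ C := le_max_right _ _
  have hL : ∀ κ, C ≤ len n m κ - 2 := fun κ => by have := hlen κ; omega
  have hL2 : ∀ κ, len n m κ - 2 + 2 = len n m κ := fun κ => by have := hlen κ; omega
  have hLD : ∀ κ (x : ℝ), (1 + e) * len n m κ ≤ x →
      ((len n m κ - 2 : ℕ) : ℝ) + C ≤ (1 - 4 * ρ) * x := by
    intro κ x hx
    have h0 : (n0 : ℝ) ≤ len n m κ := by exact_mod_cast hlen κ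
    have h1 : ((len n m κ - 2 : ℕ) : ℝ) ≤ len n m κ := by exact_mod_cast Nat.sub_le _ _
    have h2 : 2 * (C : ℝ) ≤ len n m κ * e1 := by
      have := hb3.trans h0
      rwa [div_le_iff₀ he1] at this
    have hpos : (0 : ℝ) ≤ len n m κ := by positivity
    have h3 : (1 + e1) * len n m κ ≤ x := by
      refine le_trans ?_ hx
      apply mul_le_mul_of_nonneg_right _ hpos; linarith
    have h4 : (1 + e1 / 2) * len n m κ ≤ (1 - 4 * ρ) * ((1 + e1) * len n m κ) := by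
      rw [← mul_assoc]
      apply mul_le_mul_of_nonneg_right _ hpos
      nlinarith
    have h5 : (1 - 4 * ρ) * ((1 + e1) * len n m κ) ≤ (1 - 4 * ρ) * x := mul_le_mul_of_nonneg_left h3 hθ
    linarith
  refine ⟨V0 G q ε γ η, Tg G q ε γ η δ0, Ms G q ε γ η, ?_⟩
  constructor
  · -- big
    refine le_trans ?_ (V0_big G q ε γ η hK hγ hη.le hq2)
    apply mul_le_mul_of_nonneg_right _ hNpos'.le
    linarith
  · -- inV
    classical
    intro κ u w h
    exact ⟨Finset.mem_filter.2 ⟨Finset.mem_univ _, h.2.1⟩, Finset.mem_filter.2 ⟨Finset.mem_univ _, h.2.2.1⟩⟩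
  · -- mis
    refine ⟨Ms_refl G q ε γ η, Ms_symm G q ε γ η, fun v => ?_⟩
    refine (Ms_card G q ε γ η hγ.le hq1 v).trans ?_
    have h1 : 1 ≤ e1 / 2 * (Fintype.card W : ℝ) := by
      have := hb1.trans hN0
      rw [div_le_iff₀ he1] at this
      linarith
    have h2 : (ε + γ) * (Fintype.card W : ℝ) ≤ e1 / 2 * Fintype.card W :=
      mul_le_mul_of_nonneg_right hMe hNpos'.le
    have h3 : e1 * (Fintype.card W : ℝ) ≤ e * Fintype.card W := mul_le_mul_of_nonneg_right he1e hNpos'.le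
    linarith
  · -- ind
    refine ind_tpl p a d1 n1 χ hfree.symm (hsb n m W χ hfree) q ε γ η δ0 hK hδ0d ?_
    have h1 : (K : ℝ) * n1 ≤ n0 * η := by rwa [div_le_iff₀ hη] at hb5
    have h2 : (n0 : ℝ) * η ≤ Fintype.card W * η := mul_le_mul_of_nonneg_right hN0 hη.le
    linarith
  · -- evenZ
    intro κ hev D φ hinj hadj hreach
    by_contra hcon
    push Not at hcon
    apply hfree.long κ
    have := hZ1 W (G κ) (hG κ) q (Rg G q ε γ η δ0 κ) (δ0 * ρ / 4) ρ (1 - 4 * ρ) (hDP κ) hσ hσρ hθ le_rfl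
      (fun i j hij => hCle1.trans (hbig κ i j hij)) (hdens κ) D φ hinj hadj hreach (len n m κ - 2)
      (hCn1.trans (hL κ)) ((add_le_add_right hCle1 _).trans (hLD κ _ hcon.le))
      (Or.inl (by have := hlen κ; rcases hev with ⟨r, hr⟩; exact ⟨r - 1, by omega⟩))
    rwa [hL2 κ] at this
  · -- oddZ
    intro κ D φ hinj hadj hreach hodd
    by_contra hcon
    push Not at hcon
    apply hfree.long κ
    have := hZ1 W (G κ) (hG κ) q (Rg G q ε γ η δ0 κ) (δ0 * ρ / 4) ρ (1 - 4 * ρ) (hDP κ) hσ hσρ hθ le_rfl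
      (fun i j hij => hCle1.trans (hbig κ i j hij)) (hdens κ) D φ hinj hadj hreach (len n m κ - 2)
      (hCn1.trans (hL κ)) ((add_le_add_right hCle1 _).trans (hLD κ _ hcon.le)) (Or.inr hodd)
    rwa [hL2 κ] at this
  · -- dens
    intro κ U1 h1 U2 h2
    refine (Tg_dens G q ε γ η δ0 hδ0.le hG κ U1 U2 h1 h2).trans ?_
    have : δ0 * (Fintype.card W : ℝ) ^ 2 ≤ e * (Fintype.card W : ℝ) ^ 2 :=
      mul_le_mul_of_nonneg_right hδ0e (by positivity)
    linarith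
  · -- attach
    intro κ hodd v U1 h1 U2 h2 D φ hinj hadj hD hreach hpar hv1 hv2
    apply hfree.long κ
    have hρN : 3 * ρ * (Fintype.card W : ℝ) ≤ δ * Fintype.card W := mul_le_mul_of_nonneg_right hρδ hNpos'.le
    have hw1 := hρN.trans hv1
    have hw2 := hρN.trans hv2
    have := hZ2 W (G κ) (hG κ) q (Rg G q ε γ η δ0 κ) (δ0 * ρ / 4) ρ (1 - 4 * ρ) (hDP κ) hσ hσρ hθ le_rfl
      (fun i j hij => hCle2.trans (hbig κ i j hij)) D φ hinj hadj v U1 U2 hreach hpar (le_of_le_of_eq hw1 (by congr))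
      (le_of_le_of_eq hw2 (by congr)) (len n m κ - 2) (hCn2.trans (hL κ)) ((add_le_add_right hCle2 _).trans (hLD κ _ hD))
      (by have := hlen κ; rcases hodd with ⟨r, hr⟩; exact ⟨r - 1, by omega⟩)
    rwa [hL2 κ] at this

end Pool.Agent.Lib.MP_779bc2_co
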