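import Mathlib

/-! # Row I-W1: bounded walks through all vertices of a component; bounces -/

set_option autoImplicit false

namespace Pool.Agent.Lib.MP_779bc2_co

open Finset

theorem W1Bounded_closed {K : ℕ} (R : SimpleGraph (Fin K)) (i : Fin K) (T : Finset (Fin K))
    (hT : ∀ k ∈ T, R.Reachable i k) :
    ∃ c : R.Walk i i, c.length % 2 = 0 ∧ ∀ k ∈ T, k ∈ c.support := by
  classical
  induction T using Finset.induction_on with
  | empty => exact ⟨SimpleGraph.Walk.nil, by simp, by simp⟩
  | insert a s ha ih =>
    obtain ⟨c, hc, hs⟩ := ih (fun k hk => hT k (Finset.mem_insert_of_mem hk))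
    obtain ⟨u⟩ := hT a (Finset.mem_insert_self a s)
    refine ⟨(u.append u.reverse).append c, ?_, ?_⟩
    · simp only [SimpleGraph.Walk.length_append, SimpleGraph.Walk.length_reverse]
      omega
    · intro k hk
      rw [SimpleGraph.Walk.mem_support_append_iff, SimpleGraph.Walk.mem_support_append_iff]
      rcases Finset.mem_insert.mp hk with rfl | hk
      · exact Or.inl (Or.inl u.end_mem_support)
      · exact Or.inr (hs k hk)

/-- From a walk `w : i → j` we get a walk of the same parity which visits every vertex reachable from `i`: for each reachable `k` choose `u : R.Walk i k` and put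
`u.append u.reverse` (a closed walk of even length) in front (induction over a finite set of vertices).
The bound: the type of the triples `(R, i, j)` and the parity `b % 2` is finite, so take the maximum of the lengths of chosen walks. -/
theorem bounded_walk (K : ℕ) : ∃ C : ℕ, ∀ (R : SimpleGraph (Fin K)) (i j : Fin K) (b : ℕ),
    (∃ w : R.Walk i j, w.length % 2 = b % 2) →
      ∃ w : R.Walk i j, w.length % 2 = b % 2 ∧ w.length ≤ C ∧ ∀ k, R.Reachable i k → k ∈ w.support := by
  classical
  have key : ∀ x : SimpleGraph (Fin K) × Fin K × Fin K × Fin 2, ∃ C : ℕ,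
      (∃ w : x.1.Walk x.2.1 x.2.2.1, w.length % 2 = x.2.2.2.val) →
        ∃ w : x.1.Walk x.2.1 x.2.2.1, w.length % 2 = x.2.2.2.val ∧ w.length ≤ C ∧
          ∀ k, x.1.Reachable x.2.1 k → k ∈ w.support := by
    rintro ⟨R, i, j, p⟩
    by_cases h : ∃ w : R.Walk i j, w.length % 2 = p.val
    · obtain ⟨w, hw⟩ := h
      obtain ⟨c, hc, hs⟩ := W1Bounded_closed R i (Finset.univ.filter (fun k => R.Reachable i k))
        (by intro k hk; exact (Finset.mem_filter.mp hk).2)
      refine ⟨(c.append w).length, fun _ => ⟨c.append w, ?_, le_refl _, ?_⟩⟩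
      · simp only [SimpleGraph.Walk.length_append]
        have : (c.length + w.length) % 2 = w.length % 2 := by omega
        rw [this]; exact hw
      · intro k hk
        rw [SimpleGraph.Walk.mem_support_append_iff]
        exact Or.inl (hs k (by simpa using hk))
    · exact ⟨0, fun h' => absurd h' h⟩
  choose f hf using key
  obtain ⟨C, hC⟩ := (Set.finite_range f).bddAbove
  refine ⟨C, ?_⟩
  intro R i j b hb
  obtain ⟨w, h1, h2, h3⟩ := hf ⟨R, i, j, ⟨b % 2, Nat.mod_lt _ (by norm_num)⟩⟩ hb
  exact ⟨w, h1, h2.trans (hC ⟨_, rfl⟩), h3⟩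

end Pool.Agent.Lib.MP_779bc2_co
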