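import Mathlib

/-! # Row I-W2: inserting bounces into a walk; splitting a sum -/

set_option autoImplicit false

namespace Pool.Agent.Lib.MP_779bc2_co

open Finset

theorem W2Bounce_single {K : ℕ} (R : SimpleGraph (Fin K)) {i j : Fin K} (w : R.Walk i j) (x y : Fin K)
    (hx : x ∈ w.support) (hxy : R.Adj x y) :
    ∃ w' : R.Walk i j, w'.length = w.length + 2 ∧
      ∀ k, w'.support.count k = w.support.count k + ((if x = k then 1 else 0) + (if y = k then 1 else 0)) := by
  induction w with
  | nil =>
    rename_i u
    have hxu : x = u := by simpa using hx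
    subst hxu
    refine ⟨SimpleGraph.Walk.cons hxy (SimpleGraph.Walk.cons hxy.symm SimpleGraph.Walk.nil), by simp, ?_⟩
    intro k
    simp only [SimpleGraph.Walk.support_cons, SimpleGraph.Walk.support_nil, List.count_cons,
      List.count_nil, beq_iff_eq]
    omega
  | cons h p ih =>
    rename_i u v z
    by_cases hxu : x = u
    · subst hxu
      refine ⟨SimpleGraph.Walk.cons hxy (SimpleGraph.Walk.cons hxy.symm (SimpleGraph.Walk.cons h p)),
        by simp, ?_⟩
      intro k
      simp only [SimpleGraph.Walk.support_cons, List.count_cons, beq_iff_eq]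
      omega
    · have hx' : x ∈ p.support := by
        simp only [SimpleGraph.Walk.support_cons, List.mem_cons] at hx
        rcases hx with hx | hx
        · exact absurd hx hxu
        · exact hx
      obtain ⟨p', hl, hc⟩ := ih hx'
      refine ⟨SimpleGraph.Walk.cons h p', by simp [hl], ?_⟩
      intro k
      simp only [SimpleGraph.Walk.support_cons, List.count_cons, beq_iff_eq]
      rw [hc k]
      omega

/-- One bounce, `b` times: at a visit of `x` insert `x → y → x` `b` times (`SimpleGraph.Walk.takeUntil`, `dropUntil`; or induction on `b` and on `w`). -/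
theorem bounce_one {K : ℕ} (R : SimpleGraph (Fin K)) {i j : Fin K} (w : R.Walk i j) (x y : Fin K)
    (hx : x ∈ w.support) (hxy : R.Adj x y) (b : ℕ) :
    ∃ w' : R.Walk i j, w'.length = w.length + 2 * b ∧
      ∀ k, w'.support.count k = w.support.count k + ((if x = k then b else 0) + (if y = k then b else 0)) := by
  induction b with
  | zero => exact ⟨w, by simp, by intro k; simp⟩
  | succ b ih =>
    obtain ⟨w', hl, hc⟩ := ih
    have hx' : x ∈ w'.support := by
      rw [← List.count_pos_iff, hc x]
      have := List.count_pos_iff.mpr hx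
      omega
    obtain ⟨w'', hl', hc'⟩ := W2Bounce_single R w' x y hx' hxy
    refine ⟨w'', by rw [hl', hl]; ring, ?_⟩
    intro k
    rw [hc' k, hc k]
    split_ifs <;> omega

/-- All bounces, by induction on `s` (a vertex which is in the support of `w` is in the support of `w'`: its count is positive). -/
theorem bounce_all {K : ℕ} (R : SimpleGraph (Fin K)) {i j : Fin K} (w : R.Walk i j)
    (s : Finset (Fin K × Fin K)) (b : Fin K × Fin K → ℕ)
    (h : ∀ p ∈ s, 0 < b p → p.1 ∈ w.support ∧ R.Adj p.1 p.2) :
    ∃ w' : R.Walk i j, w'.length = w.length + 2 * ∑ p ∈ s, b p ∧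
      ∀ k, w'.support.count k = w.support.count k +
        ∑ p ∈ s, ((if p.1 = k then b p else 0) + (if p.2 = k then b p else 0)) := by
  classical
  induction s using Finset.induction_on with
  | empty => exact ⟨w, by simp, by intro k; simp⟩
  | insert a s ha ih =>
    obtain ⟨w', hl, hc⟩ := ih (fun p hp => h p (Finset.mem_insert_of_mem hp))
    by_cases hb : 0 < b a
    · obtain ⟨h1, h2⟩ := h a (Finset.mem_insert_self a s) hb
      have hx' : a.1 ∈ w'.support := by
        rw [← List.count_pos_iff, hc a.1]
        have := List.count_pos_iff.mpr h1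
        omega
      obtain ⟨w'', hl', hc'⟩ := bounce_one R w' a.1 a.2 hx' h2 (b a)
      refine ⟨w'', by rw [hl', hl, Finset.sum_insert ha]; ring, ?_⟩
      intro k
      rw [hc' k, hc k, Finset.sum_insert ha]
      ring
    · have hb0 : b a = 0 := by omega
      refine ⟨w', by rw [hl, Finset.sum_insert ha, hb0]; ring, ?_⟩
      intro k
      rw [hc k, Finset.sum_insert ha, hb0]
      simp

/-- Induction on `s`. -/
theorem sub_sum {α : Type} [DecidableEq α] (s : Finset α) (B : α → ℕ) (T : ℕ) (hT : T ≤ ∑ a ∈ s, B a) :
    ∃ b : α → ℕ, (∀ a ∈ s, b a ≤ B a) ∧ ∑ a ∈ s, b a = T := by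
  induction s using Finset.induction_on generalizing T with
  | empty =>
    refine ⟨fun _ => 0, by simp, ?_⟩
    simp only [Finset.sum_empty] at hT ⊢
    omega
  | insert a s ha ih =>
    rw [Finset.sum_insert ha] at hT
    obtain ⟨b, hb, hs⟩ := ih (T - min T (B a)) (by omega)
    refine ⟨fun x => if x = a then min T (B a) else b x, ?_, ?_⟩
    · intro x hx
      by_cases hxa : x = a
      · subst hxa; simp
      · simp only [hxa, if_false]
        exact hb x ((Finset.mem_insert.mp hx).resolve_left hxa)
    · rw [Finset.sum_insert ha]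
      have : ∑ x ∈ s, (if x = a then min T (B a) else b x) = ∑ x ∈ s, b x := by
        apply Finset.sum_congr rfl
        intro x hx
        have : x ≠ a := fun h => ha (h ▸ hx)
        simp [this]
      simp only [if_true]
      rw [this, hs]
      omega

end Pool.Agent.Lib.MP_779bc2_co
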