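import Pool.Agent.Lib.MP_779bc2_co.I.Prs
import Pool.Agent.Lib.MP_779bc2_co.I.W1Bounded
import Pool.Agent.Lib.MP_779bc2_co.I.W2Bounce

/-! # Row I-W4: the walk lemma -/

set_option autoImplicit false

namespace Pool.Agent.Lib.MP_779bc2_co

open Finset

theorem W4Walk_sum {W P : Type} [Fintype P] [DecidableEq P] (D : Finset W) (f : W → P) (r : P → Prop)
    [DecidablePred r] :
    ∑ p, (if r p then (D.filter (fun u => f u = p)).card else 0) = (D.filter (fun u => r (f u))).card := by
  have h1 : ∀ p, (if r p then (D.filter (fun u => f u = p)).card else 0) =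
      ∑ u ∈ D, (if f u = p then (if r p then 1 else 0) else 0) := by
    intro p
    rw [card_filter]
    split_ifs
    · rfl
    · simp
  rw [sum_congr rfl (fun p _ => h1 p), sum_comm, card_filter]
  refine sum_congr rfl (fun u _ => ?_)
  rw [sum_ite_eq]
  simp

theorem W4Walk_bound {W P : Type} [Fintype P] [DecidableEq P] (D : Finset W) (f : W → P) (r : P → Prop)
    [DecidablePred r] (θ c : ℝ) (hθ : 0 ≤ θ) (b : P → ℕ)
    (hb : ∀ p, b p ≤ ⌊θ * (D.filter (fun u => f u = p)).card / 2⌋₊)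
    (hc : ((D.filter (fun u => r (f u))).card : ℝ) ≤ c) :
    ((∑ p, (if r p then b p else 0) : ℕ) : ℝ) ≤ θ * c / 2 := by
  have h1 : ((∑ p, (if r p then b p else 0) : ℕ) : ℝ) ≤
      ∑ p, θ / 2 * (if r p then ((D.filter (fun u => f u = p)).card : ℝ) else 0) := by
    push_cast
    refine sum_le_sum (fun p _ => ?_)
    split_ifs
    · have h2 : ((b p : ℕ) : ℝ) ≤ (⌊θ * (D.filter (fun u => f u = p)).card / 2⌋₊ : ℕ) := by
        exact_mod_cast hb p
      have h3 : ((⌊θ * (D.filter (fun u => f u = p)).card / 2⌋₊ : ℕ) : ℝ) ≤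
          θ * (D.filter (fun u => f u = p)).card / 2 := Nat.floor_le (by positivity)
      linarith
    · simp
  rw [← mul_sum] at h1
  have h4 : (∑ p, (if r p then ((D.filter (fun u => f u = p)).card : ℝ) else 0)) =
      ((D.filter (fun u => r (f u))).card : ℝ) := by
    have h5 := W4Walk_sum D f r
    exact_mod_cast h5
  rw [h4] at h1
  have h6 : θ / 2 * ((D.filter (fun u => r (f u))).card : ℝ) ≤ θ / 2 * c :=
    mul_le_mul_of_nonneg_left hc (by positivity)
  linarith

/-- **Walk lemma.** Let `C1` be the constant of `bounded_walk K`, `C = C1 + 2 K² + 2`. Let `w0 : i → j` be a walk of the parity of `L`, of length `≤ C1`, which visits every cluster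
reachable from `i`; `T = (L - w0.length) / 2`, so `w0.length + 2 T = L`. For a pair `(a, b)` of labels let `m (a,b) = #{u ∈ D : q u = a ∧ q (φ u) = b}` and
`B (a,b) = ⌊θ m (a,b) / 2⌋₊`. `∑ m = |D|`, so `∑ B ≥ θ |D| / 2 - K² ≥ T`. Choose `b ≤ B` with `∑ b = T` (`sub_sum`, `s = univ`) and insert the bounces (`bounce_all`): if
`b (a,b) > 0` then `m (a,b) > 0`, so there is `u ∈ D` with `q u = a`, `q (φ u) = b`: `a` is reachable from `i`, hence in `w0.support`, and `a`, `b` are adjacent.
Count: `∑_b m (k,b) ≤ |V_k|` and `∑_a m (a,k) = #{u ∈ D : q (φ u) = k} ≤ |V_k|` (`φ` is injective on `D`), so the bounces contribute at most `θ |V_k|`; the count in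
`w0.support` is at most its length `w0.length + 1 ≤ C1 + 1`. -/
theorem walk_lemma (K : ℕ) : ∃ C : ℕ, ∀ (W : Type) [Fintype W] (q : W → Fin K) (R : SimpleGraph (Fin K)) (θ : ℝ), 0 ≤ θ →
    ∀ (D : Finset W) (φ : W → W), Set.InjOn φ D → (∀ u ∈ D, R.Adj (q u) (q (φ u))) →
    ∀ i j : Fin K, (∀ u ∈ D, R.Reachable i (q u)) →
    ∀ L : ℕ, C ≤ L → (L : ℝ) + C ≤ θ * D.card → (∃ w : R.Walk i j, w.length % 2 = L % 2) →
      ∃ w : R.Walk i j, w.length = L ∧ ∀ k, (w.support.count k : ℝ) ≤ θ * (clu q k).card + C := by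
  classical
  obtain ⟨C1, hC1⟩ := bounded_walk K
  refine ⟨C1 + 2 * K ^ 2 + 2, ?_⟩
  intro W _ q R θ hθ D φ hinj hadj i j hreach L hCL hLθ hpar
  obtain ⟨w0, hw1, hw2, hw3⟩ := hC1 R i j L hpar
  have hlen : w0.length + 2 * ((L - w0.length) / 2) = L := by omega
  let f : W → Fin K × Fin K := fun u => (q u, q (φ u))
  let m : Fin K × Fin K → ℕ := fun p => (D.filter (fun u => f u = p)).card
  have hm : ∑ p, m p = D.card := by
    have h1 := W4Walk_sum D f (fun _ => True)
    simpa [m] using h1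
  have hB : (L - w0.length) / 2 ≤ ∑ p ∈ (univ : Finset (Fin K × Fin K)), ⌊θ * m p / 2⌋₊ := by
    have h1 : ∀ p ∈ (univ : Finset (Fin K × Fin K)), θ / 2 * (m p : ℝ) - 1 ≤ ((⌊θ * m p / 2⌋₊ : ℕ) : ℝ) := by
      intro p _
      have := Nat.lt_floor_add_one (θ * (m p : ℝ) / 2)
      linarith
    have h2 := sum_le_sum h1
    rw [sum_sub_distrib, ← mul_sum] at h2
    have h3 : (∑ p, (m p : ℝ)) = D.card := by exact_mod_cast hm
    rw [h3] at h2
    have h4 : ∑ _p : Fin K × Fin K, (1 : ℝ) = (K : ℝ) ^ 2 := by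
      simp [sq]
    rw [h4] at h2
    have h5 : (((L - w0.length) / 2 : ℕ) : ℝ) ≤ (L : ℝ) / 2 := by
      have h6 : 2 * ((L - w0.length) / 2) ≤ L := by omega
      have h7 : (2 : ℝ) * (((L - w0.length) / 2 : ℕ) : ℝ) ≤ L := by exact_mod_cast h6
      linarith
    have h8 : (((L - w0.length) / 2 : ℕ) : ℝ) ≤
        ∑ p ∈ (univ : Finset (Fin K × Fin K)), ((⌊θ * m p / 2⌋₊ : ℕ) : ℝ) := by
      refine h5.trans (le_trans ?_ h2)
      push_cast at hLθ
      have h9 : (0 : ℝ) ≤ C1 := Nat.cast_nonneg _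
      linarith
    exact_mod_cast h8
  obtain ⟨b, hb1, hb2⟩ := sub_sum (univ : Finset (Fin K × Fin K)) (fun p => ⌊θ * m p / 2⌋₊) _ hB
  obtain ⟨w', hw'1, hw'2⟩ := bounce_all R w0 univ b (by
    intro p _ hp
    have h1 : 0 < m p := by
      rcases Nat.eq_zero_or_pos (m p) with h0 | h0
      · have h2 := hb1 p (mem_univ p)
        simp only [h0] at h2
        simp at h2
        omega
      · exact h0
    obtain ⟨u, hu⟩ := card_pos.mp h1
    rw [mem_filter] at hu
    have e1 : q u = p.1 := congrArg Prod.fst hu.2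
    have e2 : q (φ u) = p.2 := congrArg Prod.snd hu.2
    refine ⟨?_, ?_⟩
    · rw [← e1]
      exact hw3 _ (hreach u hu.1)
    · rw [← e1, ← e2]
      exact hadj u hu.1)
  refine ⟨w', ?_, ?_⟩
  · rw [hw'1, hb2, hlen]
  · intro k
    rw [hw'2 k, sum_add_distrib]
    have c1 : ((D.filter (fun u => (f u).1 = k)).card : ℝ) ≤ (clu q k).card := by
      have h1 : D.filter (fun u => (f u).1 = k) ⊆ clu q k := by
        intro u hu
        rw [mem_filter] at hu
        exact mem_clu.mpr hu.2
      exact_mod_cast card_le_card h1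
    have c2 : ((D.filter (fun u => (f u).2 = k)).card : ℝ) ≤ (clu q k).card := by
      have h1 : (D.filter (fun u => (f u).2 = k)).card ≤ (clu q k).card := by
        refine card_le_card_of_injOn φ ?_ ?_
        · intro u hu
          rw [mem_coe, mem_filter] at hu
          exact mem_coe.mpr (mem_clu.mpr hu.2)
        · intro u hu v hv huv
          rw [mem_coe, mem_filter] at hu hv
          exact hinj (mem_coe.mpr hu.1) (mem_coe.mpr hv.1) huv
      exact_mod_cast h1
    have hb' : ∀ p, b p ≤ ⌊θ * (D.filter (fun u => f u = p)).card / 2⌋₊ := fun p => hb1 p (mem_univ p)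
    have d1 := W4Walk_bound D f (fun p => p.1 = k) θ _ hθ b hb' c1
    have d2 := W4Walk_bound D f (fun p => p.2 = k) θ _ hθ b hb' c2
    have d3 : (w0.support.count k : ℝ) ≤ C1 + 1 := by
      have h1 : w0.support.count k ≤ w0.support.length := List.count_le_length
      rw [SimpleGraph.Walk.length_support] at h1
      have h2 : w0.support.count k ≤ C1 + 1 := by omega
      exact_mod_cast h2
    push_cast at d1 d2 ⊢
    have h9 : (0 : ℝ) ≤ (K : ℝ) ^ 2 := by positivity
    linarith

end Pool.Agent.Lib.MP_779bc2_co
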