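import Pool.Agent.Lib.MP_779bc2_co.I.P2Path
import Pool.Agent.Lib.MP_779bc2_co.I.W4Walk

/-! # Row I-C1: a cycle of length `L + 2` from a large matching and a vertex with two large neighbourhoods -/

set_option autoImplicit false

namespace Pool.Agent.Lib.MP_779bc2_co

open Finset

/-- closing a path with the vertex `v`: the list `v :: l` -/
theorem cyc_of_path {W : Type} (G : W → W → Prop) (v : W) (l : List W) (hl : l ≠ []) (hnd : l.Nodup)
    (hc : l.IsChain G) (hv : v ∉ l) (h0 : ∀ x, l.head? = some x → G v x)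
    (h1 : ∀ x, l.getLast? = some x → G x v) : HasCyc G (l.length + 1) := by
  refine ⟨v :: l, by simp, ?_, ?_, ?_⟩
  · exact List.nodup_cons.mpr ⟨hv, hnd⟩
  · cases l with
    | nil => exact absurd rfl hl
    | cons b l' =>
      rw [List.isChain_cons_cons]
      exact ⟨h0 b rfl, hc⟩
  · intro a b ha hb
    cases l with
    | nil => exact absurd rfl hl
    | cons c l' =>
      simp only [List.head?_cons, Option.some.injEq] at ha
      rw [List.getLast?_cons_cons] at hb
      subst ha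
      exact h1 b hb

theorem c1Cycle_nbr {K : ℕ} {R : SimpleGraph (Fin K)} {i j : Fin K} (w : R.Walk i j) :
    1 ≤ w.length → ∀ k ∈ w.support, ∃ k', R.Adj k k' := by
  induction w with
  | nil => intro h; simp at h
  | @cons u v' w' h p ih =>
    intro _ k hk
    rw [SimpleGraph.Walk.support_cons, List.mem_cons] at hk
    rcases hk with rfl | hk
    · exact ⟨_, h⟩
    · by_cases hp : 1 ≤ p.length
      · exact ih hp k hk
      · cases p with
        | nil =>
          simp only [SimpleGraph.Walk.support_nil, List.mem_singleton] at hk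
          subst hk
          exact ⟨_, h.symm⟩
        | cons h' p' => simp at hp

/-- `C` = constant of `walk_lemma K` plus `3`. Take the walk `w : i → j` of length `L ≥ 1` of `walk_lemma`; every `k ∈ w.support` has a neighbour in `R`
(because `w` has length `≥ 1`), so `hbig` holds for it: `count ≤ θ |V_k| + C ≤ (1 - 4 ρ) |V_k| + ρ |V_k|`. Apply `path_lemma` and `cyc_of_path`. -/
theorem long_cycle (K : ℕ) : ∃ C : ℕ, ∀ (W : Type) [Fintype W] [DecidableEq W] (G : W → W → Prop) (q : W → Fin K)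
    (R : SimpleGraph (Fin K)) (σ ρ θ : ℝ), DProp G q R σ ρ → 0 < σ → σ < ρ → 0 ≤ θ → θ ≤ 1 - 4 * ρ →
    (∀ i j, R.Adj i j → (C : ℝ) ≤ ρ * (clu q i).card) →
    ∀ (D : Finset W) (φ : W → W), Set.InjOn φ D → (∀ u ∈ D, R.Adj (q u) (q (φ u))) →
    ∀ i j : Fin K, (∀ u ∈ D, R.Reachable i (q u)) →
    ∀ L : ℕ, C ≤ L → (L : ℝ) + C ≤ θ * D.card → (∃ w : R.Walk i j, w.length % 2 = L % 2) →
    ∀ (v : W) (S0 S1 : Finset W), S0 ⊆ clu q i → S1 ⊆ clu q j → (∀ x ∈ S0, G v x) → (∀ x ∈ S1, G x v) →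
      3 * ρ * (clu q i).card ≤ S0.card → 3 * ρ * (clu q j).card ≤ S1.card → HasCyc G (L + 2) := by
  obtain ⟨C0, hC0⟩ := walk_lemma K
  refine ⟨C0 + 3, ?_⟩
  intro W _ _ G q R σ ρ θ hD hσ hσρ hθ0 hθ hsize D φ hφ hadj i j hreach L hL hLD hpar v S0 S1 hS0
    hS1 hv0 hv1 hc0 hc1
  push_cast at hLD hsize
  obtain ⟨w, hw, hcount⟩ := hC0 W q R θ hθ0 D φ hφ hadj i j hreach L (by omega) (by linarith) hpar
  have hw1 : 1 ≤ w.length := by omega
  have hnbr : ∀ k ∈ w.support, (C0 : ℝ) + 3 ≤ ρ * (clu q k).card := by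
    intro k hk
    obtain ⟨k', hk'⟩ := c1Cycle_nbr w hw1 k hk
    exact hsize k k' hk'
  have hC0' : (0 : ℝ) ≤ C0 := Nat.cast_nonneg _
  obtain ⟨l, hlen, hnd, hch, hvl, hhead, hlast⟩ := path_lemma G q R σ ρ hD hσ hσρ w hw1
    (fun k hk => by linarith [hnbr k hk])
    (fun k hk => by
      have h1 := hcount k
      have h2 := hnbr k hk
      have h3 : θ * ((clu q k).card : ℝ) ≤ (1 - 4 * ρ) * (clu q k).card :=
        mul_le_mul_of_nonneg_right hθ (Nat.cast_nonneg _)
      nlinarith)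
    v S0 S1 hS0 hS1 hc0 hc1
  have hne : l ≠ [] := by
    intro h
    rw [h] at hlen
    simp at hlen
  have := cyc_of_path G v l hne hnd hch hvl (fun x hx => hv0 x (hhead x hx))
    (fun x hx => hv1 x (hlast x hx))
  rw [hlen, hw] at this
  exact this

end Pool.Agent.Lib.MP_779bc2_co
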