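import Pool.Agent.Lib.MP_779bc2_co.Defs

/-!
# MP_779bc2_co, Part I: definitions

`q : W → ι` is a labelling of the vertices, `clu q i` its clusters. A pair `(X, Y)` of sets is regular if
`|e(A, B) - d(X, Y) |A| |B|| ≤ ε |X| |Y|` for all `A ⊆ X`, `B ⊆ Y` (absolute form: no lower bound on the sizes of `A`, `B`).
-/

set_option autoImplicit false

namespace Pool.Agent.Lib.MP_779bc2_co

open Finset

section regularity

variable {W : Type} [Fintype W] {ι : Type}

open Classical in
/-- the cluster with label `i` -/
noncomputable def clu (q : W → ι) (i : ι) : Finset W := univ.filter (fun w => q w = i)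

open Classical in
/-- number of the ordered pairs in `A × B` with property `P`, as a double sum of indicators (see `prs_eq_sum`) -/
noncomputable def idc (G : W → W → Prop) (u w : W) : ℝ := if G u w then 1 else 0

/-- density of `G` between the clusters `i` and `j` (`0` if one of them is empty) -/
noncomputable def dn (G : W → W → Prop) (q : W → ι) (i j : ι) : ℝ :=
  prs G (clu q i) (clu q j) / ((clu q i).card * (clu q j).card)

/-- the energy of the labelling `q`: the sum of the squares of the densities over all ordered pairs of vertices -/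
noncomputable def en (G : W → W → Prop) (q : W → ι) : ℝ := ∑ u, ∑ w, (dn G q (q u) (q w)) ^ 2

/-- regular pair (absolute form) -/
def Reg (G : W → W → Prop) (ε : ℝ) (X Y : Finset W) : Prop :=
  ∀ A ⊆ X, ∀ B ⊆ Y,
    |prs G A B - prs G X Y / (X.card * Y.card) * (A.card * B.card)| ≤ ε * (X.card * Y.card)

/-- number of the ordered pairs of vertices which lie in an irregular pair of clusters -/
noncomputable def irw (G : W → W → Prop) (ε : ℝ) (q : W → ι) : ℝ :=
  prs (fun u w => ¬ Reg G ε (clu q (q u)) (clu q (q w))) univ univ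

end regularity

section template

variable {W : Type} [Fintype W] {K : ℕ}

/-- irregular pair of clusters (for red or blue, in one of the two orders) -/
def Irr (G : Bool → W → W → Prop) (q : W → Fin K) (ε : ℝ) (i j : Fin K) : Prop :=
  ∃ κ, ¬ Reg (G κ) ε (clu q i) (clu q j) ∨ ¬ Reg (G κ) ε (clu q j) (clu q i)

theorem Irr.symm {G : Bool → W → W → Prop} {q : W → Fin K} {ε : ℝ} {i j : Fin K} (h : Irr G q ε i j) :
    Irr G q ε j i := by
  obtain ⟨κ, h | h⟩ := h
  · exact ⟨κ, Or.inr h⟩
  · exact ⟨κ, Or.inl h⟩

open Classical in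
/-- good cluster: not too small, and only `γ N` vertices lie in clusters which form an irregular pair with it -/
def Good (G : Bool → W → W → Prop) (q : W → Fin K) (ε γ η : ℝ) (i : Fin K) : Prop :=
  η * Fintype.card W ≤ K * (clu q i).card ∧
    ((univ.filter (fun w => Irr G q ε i (q w))).card : ℝ) ≤ γ * Fintype.card W

open Classical in
/-- the vertices in good clusters -/
noncomputable def V0 (G : Bool → W → W → Prop) (q : W → Fin K) (ε γ η : ℝ) : Finset W :=
  univ.filter (fun u => Good G q ε γ η (q u))

/-- the relation `M` (missing): equal, or in good clusters which are equal or form an irregular pair -/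
def Ms (G : Bool → W → W → Prop) (q : W → Fin K) (ε γ η : ℝ) (u w : W) : Prop :=
  u = w ∨ (Good G q ε γ η (q u) ∧ Good G q ε γ η (q w) ∧ (q u = q w ∨ Irr G q ε (q u) (q w)))

/-- the reduced graph of the colour `κ` -/
def Rg (G : Bool → W → W → Prop) (q : W → Fin K) (ε γ η δ0 : ℝ) (κ : Bool) : SimpleGraph (Fin K) where
  Adj i j := i ≠ j ∧ Good G q ε γ η i ∧ Good G q ε γ η j ∧ ¬ Irr G q ε i j ∧
    δ0 * ((clu q i).card * (clu q j).card) ≤ prs (G κ) (clu q i) (clu q j) ∧
    δ0 * ((clu q j).card * (clu q i).card) ≤ prs (G κ) (clu q j) (clu q i)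
  symm := ⟨fun _ _ h => ⟨h.1.symm, h.2.2.1, h.2.1, fun h' => h.2.2.2.1 h'.symm, h.2.2.2.2.2, h.2.2.2.2.1⟩⟩
  loopless := ⟨fun _ h => h.1 rfl⟩

/-- the template graph of the colour `κ`: the blow-up of the reduced graph -/
def Tg (G : Bool → W → W → Prop) (q : W → Fin K) (ε γ η δ0 : ℝ) (κ : Bool) : SimpleGraph W :=
  (Rg G q ε γ η δ0 κ).comap q

open Classical in
/-- all but `σ |V_i|` vertices `u` of `V_i` have at least `2 σ |V_j|` neighbours in any subset `B` of `V_j` with `|B| ≥ ρ |V_j|`, for
adjacent clusters `i`, `j` -/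
def DProp (G : W → W → Prop) (q : W → Fin K) (R : SimpleGraph (Fin K)) (σ ρ : ℝ) : Prop :=
  ∀ i j, R.Adj i j → ∀ B ⊆ clu q j, ρ * (clu q j).card ≤ B.card →
    (((clu q i).filter (fun u => ((B.filter (fun w => G u w)).card : ℝ) < 2 * σ * (clu q j).card)).card : ℝ)
      ≤ σ * (clu q i).card

end template

end Pool.Agent.Lib.MP_779bc2_co
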