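import Pool.Agent.Lib.MP_779bc2_co.I.Prs

/-! # Row I-P1: greedy embedding of a path along a list of clusters -/

set_option autoImplicit false

namespace Pool.Agent.Lib.MP_779bc2_co

open Finset

variable {W : Type} [Fintype W] [DecidableEq W] {K : ℕ}

/-- the target set for the next vertex: `c` is the list of the clusters which still have to be visited, `F` the set of forbidden vertices, `S` the
set in which the last vertex has to lie -/
noncomputable def tgt (q : W → Fin K) (S F : Finset W) : List (Fin K) → Finset W
  | [] => ∅
  | [_] => S
  | j :: _ :: _ => clu q j \ F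

open Classical in
/-- **Greedy embedding.** Induction on `c`, for all `i`, `F`, `v`.
* `c = [j]`: `v` has at least `2 σ |V_j| > 0` neighbours in `S`; take one, `l = [x]`.
* `c = j :: j' :: c''`: put `B' = tgt q S F (j' :: c'')` (`= S` or `clu q j' \ F`), a subset of `V_{j'}` with `ρ |V_{j'}| ≤ |B'|`. By `DProp` (for `j`, `j'`, adjacent) at most
  `σ |V_j|` vertices of `V_j` have fewer than `2 σ |V_{j'}|` neighbours in `B'`; `v` has at least `2 σ |V_j| > σ |V_j|` neighbours in `V_j \ F`: choose a neighbour
  `x ∈ V_j \ F` which is not one of them. Put `F' = insert x F`. As `j ≠ j'` we have `x ∉ V_{j'}`, so `clu q j' \ F' = clu q j' \ F`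
  and `tgt q S F' (j' :: c'') = B'`. The counting hypothesis for `F'`: for `k ∈ j' :: c''`, if `k = j` both sides drop by one (`|V_j \ F'| ≥ |V_j \ F| - 1`,
  `count j (j :: c') = count j c' + 1`), otherwise nothing changes. The induction hypothesis gives `l'`; take `l = x :: l'`. `x ∉ l'`: the elements of `l'.dropLast` are not in
  `F' ∋ x`, the last element is in `S ⊆ F` but `x ∉ F`. -/
theorem greedy (G : W → W → Prop) (q : W → Fin K) (R : SimpleGraph (Fin K)) (σ ρ : ℝ) (hD : DProp G q R σ ρ)
    (hσ : 0 < σ) (S : Finset W) :
    ∀ (c : List (Fin K)) (i : Fin K) (F : Finset W) (v : W), c ≠ [] → List.IsChain R.Adj (i :: c) → S ⊆ F →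
      (∀ k ∈ c, 0 < (clu q k).card ∧ ρ * (clu q k).card + (c.count k : ℝ) ≤ ((clu q k \ F).card : ℝ)) →
      (∀ j, c.getLast? = some j → S ⊆ clu q j ∧ ρ * (clu q j).card ≤ S.card) →
      (∀ j, c.head? = some j →
        2 * σ * (clu q j).card ≤ (((tgt q S F c).filter (fun x => G v x)).card : ℝ)) →
      ∃ l : List W, l.length = c.length ∧ l.Nodup ∧ List.IsChain G (v :: l) ∧
        (∀ x, l.getLast? = some x → x ∈ S) ∧ ∀ x ∈ l.dropLast, x ∉ F := by
  intro c
  induction c with
  | nil => intro i F v h; exact absurd rfl h
  | cons j c' ih =>
    intro i F v _ hch hSF hcnt hlast hhead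
    have hj := hcnt j List.mem_cons_self
    have hVj : (0 : ℝ) < (clu q j).card := by exact_mod_cast hj.1
    have hh := hhead j rfl
    cases c' with
    | nil =>
      have hpos : (0 : ℝ) < (((tgt q S F [j]).filter (fun x => G v x)).card : ℝ) :=
        lt_of_lt_of_le (by positivity) hh
      have hne : ((tgt q S F [j]).filter (fun x => G v x)).Nonempty := by
        rw [← Finset.card_pos]; exact_mod_cast hpos
      obtain ⟨x, hx⟩ := hne
      rw [Finset.mem_filter] at hx
      have hxS : x ∈ S := hx.1
      refine ⟨[x], rfl, List.nodup_singleton x, ?_, ?_, ?_⟩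
      · rw [List.isChain_cons_cons]
        exact ⟨hx.2, List.isChain_singleton x⟩
      · intro y hy
        rw [List.getLast?_singleton, Option.some_inj] at hy
        exact hy ▸ hxS
      · intro y hy
        simp at hy
    | cons j' c'' =>
      rw [List.isChain_cons_cons] at hch
      have hch2 := hch.2
      rw [List.isChain_cons_cons] at hch2
      have hadj : R.Adj j j' := hch2.1
      have hne : j ≠ j' := hadj.ne
      have hj' := hcnt j' (List.mem_cons_of_mem _ List.mem_cons_self)
      -- the target of the next vertex
      have hB : tgt q S F (j' :: c'') ⊆ clu q j' ∧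
          ρ * (clu q j').card ≤ ((tgt q S F (j' :: c'')).card : ℝ) := by
        cases c'' with
        | nil => exact hlast j' rfl
        | cons a b =>
          refine ⟨Finset.sdiff_subset, ?_⟩
          have h0 : (0 : ℝ) ≤ ((j :: j' :: a :: b).count j' : ℝ) := Nat.cast_nonneg _
          have h1 := hj'.2
          have h2 : tgt q S F (j' :: a :: b) = clu q j' \ F := rfl
          rw [h2]
          linarith
      have hbad := hD j j' hadj _ hB.1 hB.2
      have hx : ∃ x ∈ (clu q j \ F).filter (fun x => G v x),
          x ∉ (clu q j).filter (fun u =>
            ((((tgt q S F (j' :: c'')).filter (fun w => G u w)).card : ℝ) < 2 * σ * (clu q j').card)) := by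
        by_contra hcon
        push Not at hcon
        have hsub : (clu q j \ F).filter (fun x => G v x) ⊆ (clu q j).filter (fun u =>
            ((((tgt q S F (j' :: c'')).filter (fun w => G u w)).card : ℝ) < 2 * σ * (clu q j').card)) :=
          fun x hx => hcon x hx
        have h1 : (((clu q j \ F).filter (fun x => G v x)).card : ℝ) ≤ σ * (clu q j).card :=
          le_trans (by exact_mod_cast Finset.card_le_card hsub) hbad
        have h2 : 2 * σ * (clu q j).card ≤ (((clu q j \ F).filter (fun x => G v x)).card : ℝ) := hh
        have h3 : 0 < σ * (clu q j).card := by positivity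
        linarith
      obtain ⟨x, hx1, hx2⟩ := hx
      rw [Finset.mem_filter, Finset.mem_sdiff] at hx1
      have hxj : q x = j := mem_clu.1 hx1.1.1
      have hxF : x ∉ F := hx1.1.2
      have hxj' : x ∉ clu q j' := fun h => hne (hxj.symm.trans (mem_clu.1 h))
      have hx3 : 2 * σ * (clu q j').card ≤
          ((((tgt q S F (j' :: c'')).filter (fun w => G x w)).card : ℝ)) := by
        by_contra hlt
        exact hx2 (Finset.mem_filter.2 ⟨hx1.1.1, not_le.1 hlt⟩)
      have htgt : tgt q S (insert x F) (j' :: c'') = tgt q S F (j' :: c'') := by
        cases c'' with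
        | nil => rfl
        | cons a b =>
          show clu q j' \ insert x F = clu q j' \ F
          ext y
          simp only [Finset.mem_sdiff, Finset.mem_insert, not_or]
          constructor
          · rintro ⟨h1, _, h3⟩; exact ⟨h1, h3⟩
          · rintro ⟨h1, h3⟩
            exact ⟨h1, fun h => hxj' (h ▸ h1), h3⟩
      obtain ⟨l', hl1, hl2, hl3, hl4, hl5⟩ := ih j (insert x F) x (List.cons_ne_nil _ _) hch.2
        (hSF.trans (Finset.subset_insert _ _)) (by
          intro k hk
          have hk0 := hcnt k (List.mem_cons_of_mem _ hk)
          refine ⟨hk0.1, ?_⟩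
          by_cases hkj : j = k
          · subst hkj
            have hcs : (j :: j' :: c'').count j = (j' :: c'').count j + 1 := List.count_cons_self
            have h1 := hk0.2
            rw [hcs] at h1
            push_cast at h1
            have h2 : clu q j \ insert x F = (clu q j \ F).erase x := by
              ext y
              simp only [Finset.mem_sdiff, Finset.mem_insert, not_or, Finset.mem_erase]
              tauto
            have h3 : x ∈ clu q j \ F := Finset.mem_sdiff.2 hx1.1
            have h4 := Finset.card_erase_add_one h3
            rw [h2]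
            have h5 : (((clu q j \ F).erase x).card : ℝ) + 1 = ((clu q j \ F).card : ℝ) := by
              exact_mod_cast h4
            linarith
          · have hcs : (j :: j' :: c'').count k = (j' :: c'').count k := List.count_cons_of_ne hkj
            have h1 := hk0.2
            rw [hcs] at h1
            have h2 : clu q k \ insert x F = clu q k \ F := by
              ext y
              simp only [Finset.mem_sdiff, Finset.mem_insert, not_or]
              constructor
              · rintro ⟨h1, _, h3⟩; exact ⟨h1, h3⟩
              · rintro ⟨h1, h3⟩
                refine ⟨h1, fun h => ?_, h3⟩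
                rw [h] at h1
                exact hkj (hxj.symm.trans (mem_clu.1 h1))
            rw [h2]
            exact h1)
        (by
          intro k hk
          apply hlast k
          rw [List.getLast?_cons_cons]
          exact hk)
        (by
          intro k hk
          have hk' : j' = k := by simpa using hk
          subst hk'
          rw [htgt]
          exact hx3)
      have hl'ne : l' ≠ [] := by
        intro h
        rw [h] at hl1
        simp at hl1
      have hxl : x ∉ l' := by
        intro hxl
        rw [← List.dropLast_append_getLast hl'ne, List.mem_append, List.mem_singleton] at hxl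
        rcases hxl with h | h
        · exact hl5 x h (Finset.mem_insert_self _ _)
        · have h2 : x ∈ S := by
            apply hl4 x
            rw [List.getLast?_eq_some_getLast hl'ne, ← h]
          exact hxF (hSF h2)
      refine ⟨x :: l', ?_, ?_, ?_, ?_, ?_⟩
      · rw [List.length_cons, hl1, List.length_cons, List.length_cons]
        rfl
      · exact List.nodup_cons.2 ⟨hxl, hl2⟩
      · rw [List.isChain_cons_cons]
        exact ⟨hx1.2, hl3⟩
      · intro y hy
        apply hl4 y
        rw [← hy, List.getLast?_cons_of_ne_nil hl'ne]
      · intro y hy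
        rw [List.dropLast_cons_of_ne_nil hl'ne, List.mem_cons] at hy
        rcases hy with h | h
        · exact h ▸ hxF
        · exact fun hyF => hl5 y h (Finset.mem_insert_of_mem hyF)

end Pool.Agent.Lib.MP_779bc2_co
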