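import Pool.Agent.Lib.MP_779bc2_co.I.P1Greedy

/-! # Row I-P2: the path lemma -/

set_option autoImplicit false

namespace Pool.Agent.Lib.MP_779bc2_co

open Finset

variable {W : Type} [Fintype W] [DecidableEq W] {K : ℕ}

theorem p2_clu_inter (q : W → Fin K) (S : Finset W) (ρ : ℝ) (hρ : 0 < ρ) (j : Fin K) (hSj : S ⊆ clu q j)
    (hS : (S.card : ℝ) ≤ ρ * (clu q j).card + 1) (k : Fin K) :
    (((clu q k) ∩ S).card : ℝ) ≤ ρ * (clu q k).card + 1 := by
  classical
  by_cases hkj : k = j
  · subst hkj
    have h1 : ((clu q k) ∩ S).card ≤ S.card := Finset.card_le_card Finset.inter_subset_right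
    have h2 : (((clu q k) ∩ S).card : ℝ) ≤ S.card := by exact_mod_cast h1
    linarith
  · have h1 : (clu q k) ∩ S = ∅ := by
      rw [Finset.eq_empty_iff_forall_notMem]
      intro x hx
      rw [Finset.mem_inter] at hx
      have h2 := hSj hx.2
      have h3 := hx.1
      rw [mem_clu] at h2 h3
      exact hkj (h3.symm.trans h2)
    rw [h1]
    simp only [Finset.card_empty, Nat.cast_zero]
    positivity

omit [Fintype W] in
theorem p2_sdiff_card (A S : Finset W) (F : Finset W) (m : ℕ) (T : Finset W) (hT : T.card ≤ m)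
    (hF : F ⊆ T ∪ S) : (A.card : ℝ) - (A ∩ S).card - m ≤ ((A \ F).card : ℝ) := by
  classical
  have h1 : A.card ≤ (A \ F).card + (A ∩ S).card + T.card := by
    have h2 : A ⊆ (A \ F) ∪ (A ∩ S) ∪ T := by
      intro x hx
      simp only [Finset.mem_union, Finset.mem_sdiff, Finset.mem_inter]
      by_cases hxF : x ∈ F
      · have := hF hxF
        rw [Finset.mem_union] at this
        rcases this with h | h
        · exact Or.inr h
        · exact Or.inl (Or.inr ⟨hx, h⟩)
      · exact Or.inl (Or.inl ⟨hx, hxF⟩)
    calc A.card ≤ ((A \ F) ∪ (A ∩ S) ∪ T).card := Finset.card_le_card h2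
      _ ≤ ((A \ F) ∪ (A ∩ S)).card + T.card := Finset.card_union_le _ _
      _ ≤ (A \ F).card + (A ∩ S).card + T.card := by
        have := Finset.card_union_le (A \ F) (A ∩ S)
        omega
  have h3 : (A.card : ℝ) ≤ (A \ F).card + (A ∩ S).card + T.card := by exact_mod_cast h1
  have h4 : (T.card : ℝ) ≤ m := by exact_mod_cast hT
  linarith

omit [Fintype W] [DecidableEq W] in
theorem p2_mem_of_last {l : List W} {S F : Finset W} (hl : ∀ x, l.getLast? = some x → x ∈ S)
    (hd : ∀ x ∈ l.dropLast, x ∉ F) {z : W} (hzF : z ∈ F) (hzS : z ∉ S) : z ∉ l := by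
  intro hz
  have hne : l ≠ [] := List.ne_nil_of_mem hz
  rw [← List.dropLast_append_getLast hne, List.mem_append, List.mem_singleton] at hz
  rcases hz with h | h
  · exact hd z h hzF
  · apply hzS
    rw [h]
    exact hl _ (List.getLast?_eq_getLast_of_ne_nil hne)

/-- **Path lemma.** Choose `S ⊆ S1 \ {v}` with `ρ |V_j| ≤ |S| ≤ ρ |V_j| + 1` (`Finset.exists_subset_card_eq` with `⌈ρ |V_j|⌉₊`; `|S1 \ {v}| ≥ 3 ρ |V_j| - 1 ≥ ρ |V_j| + 1`).
The first vertex `v0 ∈ S0 \ (S ∪ {v})`: this set has at least `3 ρ |V_i| - (ρ |V_i| + 1) - 1 ≥ ρ |V_i| > σ |V_i|` elements (if `i ≠ j` then `S ∩ V_i = ∅`), so by `DProp` it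
contains `v0` with at least `2 σ |V_k|` neighbours in the target set `tgt q S (insert v S) c`, where `w.support = i :: c`
(`SimpleGraph.Walk.support_eq_cons`), `k` the head of `c` (the target does not change when `v0` is added to the forbidden set since `k ≠ i`).
Apply `greedy` with `F = insert v0 (insert v S)`: `|V_k \ F| ≥ |V_k| - (ρ |V_k| + 1) - 2 ≥ ρ |V_k| + (1 - 3 ρ) |V_k|` because `3 ≤ ρ |V_k|`.
Result `l = v0 :: l'`; `v0, v ∉ l'` because `v0, v ∈ F \ S`. The chain condition for `w.support` is `SimpleGraph.Walk.isChain_adj_support`. -/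
theorem path_lemma (G : W → W → Prop) (q : W → Fin K) (R : SimpleGraph (Fin K)) (σ ρ : ℝ) (hD : DProp G q R σ ρ)
    (hσ : 0 < σ) (hσρ : σ < ρ) {i j : Fin K} (w : R.Walk i j) (hw : 1 ≤ w.length)
    (hbig : ∀ k ∈ w.support, 3 ≤ ρ * (clu q k).card)
    (hcnt : ∀ k ∈ w.support, (w.support.count k : ℝ) ≤ (1 - 3 * ρ) * (clu q k).card)
    (v : W) (S0 S1 : Finset W) (hS0 : S0 ⊆ clu q i) (hS1 : S1 ⊆ clu q j) (h0 : 3 * ρ * (clu q i).card ≤ S0.card)
    (h1 : 3 * ρ * (clu q j).card ≤ S1.card) :
    ∃ l : List W, l.length = w.length + 1 ∧ l.Nodup ∧ l.IsChain G ∧ v ∉ l ∧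
      (∀ x, l.head? = some x → x ∈ S0) ∧ (∀ x, l.getLast? = some x → x ∈ S1) := by
  classical
  have hρ : 0 < ρ := lt_trans hσ hσρ
  -- the list of the clusters
  obtain ⟨c, hc⟩ : ∃ c, w.support = i :: c := ⟨w.support.tail, by
    have := w.cons_tail_support
    exact this.symm⟩
  have hclen : c.length = w.length := by
    have h1 := w.length_support
    rw [hc] at h1
    simpa using h1
  have hcne : c ≠ [] := by
    intro h
    rw [h] at hclen
    simp at hclen
    omega
  have hchain : List.IsChain R.Adj (i :: c) := by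
    rw [← hc]; exact w.isChain_adj_support
  have hlast : c.getLast? = some j := by
    have h1 : w.support.getLast? = some j := by
      rw [List.getLast?_eq_getLast_of_ne_nil w.support_ne_nil, w.getLast_support]
    rw [hc] at h1
    rw [List.getLast?_cons, Option.some_inj] at h1
    cases hcl : c.getLast? with
    | none => exact absurd (List.getLast?_eq_none_iff.mp hcl) hcne
    | some a =>
      rw [hcl] at h1
      simpa using h1
  obtain ⟨k, c', hkc⟩ : ∃ k c', c = k :: c' := List.exists_cons_of_ne_nil hcne
  have hik : R.Adj i k := by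
    rw [hkc] at hchain
    exact (List.isChain_cons_cons.mp hchain).1
  have hmemc : ∀ a ∈ c, a ∈ w.support := fun a ha => by rw [hc]; exact List.mem_cons_of_mem _ ha
  have hisup : i ∈ w.support := by rw [hc]; exact List.mem_cons_self
  have hjsup : j ∈ w.support := w.end_mem_support
  have hksup : k ∈ w.support := hmemc k (by rw [hkc]; exact List.mem_cons_self)
  have hVpos : ∀ a ∈ w.support, 0 < ((clu q a).card : ℝ) := by
    intro a ha
    have h3 := hbig a ha
    by_contra hneg
    have h4 : ((clu q a).card : ℝ) = 0 := le_antisymm (not_lt.mp hneg) (Nat.cast_nonneg _)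
    rw [h4] at h3
    linarith
  have hρ3 : 3 * ρ < 1 := by
    have h3 := hcnt i hisup
    have h4 : 1 ≤ w.support.count i := List.count_pos_iff.mpr hisup
    have h5 : (1 : ℝ) ≤ w.support.count i := by exact_mod_cast h4
    have h6 := hVpos i hisup
    by_contra hneg
    have h7 : (1 - 3 * ρ) * (clu q i).card ≤ 0 :=
      mul_nonpos_of_nonpos_of_nonneg (by linarith) h6.le
    linarith
  -- the set `S`
  have hS1card : (⌈ρ * (clu q j).card⌉₊ : ℝ) ≤ ((S1.erase v).card : ℝ) := by
    have h3 : (⌈ρ * (clu q j).card⌉₊ : ℝ) < ρ * (clu q j).card + 1 :=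
      Nat.ceil_lt_add_one (by positivity)
    have h4 : S1.card - 1 ≤ (S1.erase v).card := Finset.pred_card_le_card_erase
    have h5 : (S1.card : ℝ) ≤ (S1.erase v).card + 1 := by
      have : S1.card ≤ (S1.erase v).card + 1 := by omega
      exact_mod_cast this
    have h6 := hbig j hjsup
    linarith
  obtain ⟨S, hSsub, hScard⟩ := Finset.exists_subset_card_eq
    (s := S1.erase v) (n := ⌈ρ * (clu q j).card⌉₊) (by exact_mod_cast hS1card)
  have hSS1 : S ⊆ S1 := hSsub.trans (Finset.erase_subset _ _)
  have hvS : v ∉ S := fun h => (Finset.mem_erase.mp (hSsub h)).1 rfl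
  have hSj : S ⊆ clu q j := hSS1.trans hS1
  have hSlow : ρ * (clu q j).card ≤ S.card := by
    rw [hScard]; exact Nat.le_ceil _
  have hSup : (S.card : ℝ) ≤ ρ * (clu q j).card + 1 := by
    rw [hScard]; exact (Nat.ceil_lt_add_one (by positivity)).le
  have hinter := p2_clu_inter q S ρ hρ j hSj hSup
  -- the target
  have htgt : ∀ F : Finset W, (∀ x ∈ F, x ∉ insert v S → x ∉ clu q k) → insert v S ⊆ F →
      tgt q S F c = tgt q S (insert v S) c := by
    intro F hF hsub
    rw [hkc]
    cases c' with
    | nil => rfl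
    | cons k' c'' =>
      show clu q k \ F = clu q k \ (insert v S)
      ext x
      simp only [Finset.mem_sdiff]
      constructor
      · rintro ⟨h3, h4⟩
        exact ⟨h3, fun h5 => h4 (hsub h5)⟩
      · rintro ⟨h3, h4⟩
        exact ⟨h3, fun h5 => hF x h5 h4 h3⟩
  have htgt_sub : tgt q S (insert v S) c ⊆ clu q k ∧
      ρ * (clu q k).card ≤ (tgt q S (insert v S) c).card := by
    rw [hkc]
    cases c' with
    | nil =>
      rw [hkc] at hlast
      simp only [List.getLast?_singleton, Option.some.injEq] at hlast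
      subst hlast
      exact ⟨hSj, hSlow⟩
    | cons k' c'' =>
      refine ⟨Finset.sdiff_subset, ?_⟩
      show ρ * ((clu q k).card : ℝ) ≤ ((clu q k \ (insert v S)).card : ℝ)
      have h3 := p2_sdiff_card (clu q k) S (insert v S) 1 {v} (by simp) (by
        intro x hx
        rw [Finset.mem_insert] at hx
        rw [Finset.mem_union, Finset.mem_singleton]
        exact hx)
      have h4 := hinter k
      have h5 := hbig k hksup
      have h6 := hVpos k hksup
      push_cast at h3
      nlinarith
  -- the first vertex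
  have hbad := hD i k hik (tgt q S (insert v S) c) htgt_sub.1 htgt_sub.2
  have hS0card : σ * (clu q i).card < ((S0 \ (insert v S)).card : ℝ) := by
    have h3 := p2_sdiff_card S0 S (insert v S) 1 {v} (by simp) (by
        intro x hx
        rw [Finset.mem_insert] at hx
        rw [Finset.mem_union, Finset.mem_singleton]
        exact hx)
    have h4 : ((S0 ∩ S).card : ℝ) ≤ ((clu q i) ∩ S).card := by
      exact_mod_cast Finset.card_le_card (Finset.inter_subset_inter_right hS0)
    have h5 := hinter i
    have h6 := hbig i hisup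
    have h7 := hVpos i hisup
    have h8 : σ * (clu q i).card < ρ * (clu q i).card := mul_lt_mul_of_pos_right hσρ h7
    push_cast at h3
    linarith
  obtain ⟨v0, hv0, hv0bad⟩ : ∃ v0 ∈ S0 \ (insert v S), v0 ∉ (clu q i).filter
      (fun u => (((tgt q S (insert v S) c).filter (fun w => G u w)).card : ℝ) <
        2 * σ * (clu q k).card) := by
    by_contra hcon
    push Not at hcon
    have h3 : ((S0 \ (insert v S)).card : ℝ) ≤ (((clu q i).filter
      (fun u => (((tgt q S (insert v S) c).filter (fun w => G u w)).card : ℝ) <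
        2 * σ * (clu q k).card)).card : ℝ) := by
      exact_mod_cast Finset.card_le_card (fun x hx => hcon x hx)
    linarith
  rw [Finset.mem_sdiff, Finset.mem_insert, not_or] at hv0
  obtain ⟨hv0S0, hv0v, hv0S⟩ := hv0
  have hv0i : v0 ∈ clu q i := hS0 hv0S0
  have hdeg : 2 * σ * (clu q k).card ≤
      (((tgt q S (insert v S) c).filter (fun w => G v0 w)).card : ℝ) := by
    by_contra hcon
    exact hv0bad (Finset.mem_filter.mpr ⟨hv0i, not_le.mp hcon⟩)
  have hv0k : v0 ∉ clu q k := by
    intro h3
    have hv0i' := hv0i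
    rw [mem_clu] at h3 hv0i'
    exact hik.ne (hv0i'.symm.trans h3)
  have hF : ∀ x ∈ insert v0 (insert v S), x ∉ insert v S → x ∉ clu q k := by
    intro x hx hx2
    rw [Finset.mem_insert] at hx
    rcases hx with h3 | h3
    · rw [h3]; exact hv0k
    · exact absurd h3 hx2
  have hsubF : insert v S ⊆ insert v0 (insert v S) := Finset.subset_insert _ _
  obtain ⟨l', hl'len, hl'nd, hl'ch, hl'last, hl'drop⟩ :=
    greedy G q R σ ρ hD hσ S c i (insert v0 (insert v S)) v0 hcne hchain
      ((Finset.subset_insert _ _).trans hsubF)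
      (by
        intro a ha
        have hasup := hmemc a ha
        refine ⟨by exact_mod_cast hVpos a hasup, ?_⟩
        have h3 := p2_sdiff_card (clu q a) S (insert v0 (insert v S)) 2 {v0, v}
          Finset.card_le_two (by
          intro x hx
          simp only [Finset.mem_insert] at hx
          simp only [Finset.mem_union, Finset.mem_insert, Finset.mem_singleton]
          tauto)
        have h4 := hinter a
        have h5 := hbig a hasup
        have h6 := hcnt a hasup
        have h7 : c.count a ≤ w.support.count a := by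
          rw [hc]; exact List.count_le_count_cons
        have h8 : (c.count a : ℝ) ≤ w.support.count a := by exact_mod_cast h7
        push_cast at h3
        nlinarith)
      (by
        intro a ha
        rw [hlast] at ha
        have : j = a := by simpa using ha
        subst this
        exact ⟨hSj, hSlow⟩)
      (by
        intro a ha
        rw [hkc] at ha
        have : k = a := by simpa using ha
        subst this
        rw [htgt _ hF hsubF]
        exact hdeg)
  have hl'ne : l' ≠ [] := by
    intro h3
    rw [h3] at hl'len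
    exact hcne (List.length_eq_zero_iff.mp hl'len.symm)
  have hv0l' : v0 ∉ l' := p2_mem_of_last hl'last hl'drop (Finset.mem_insert_self _ _) hv0S
  have hvl' : v ∉ l' := p2_mem_of_last hl'last hl'drop
    (Finset.mem_insert_of_mem (Finset.mem_insert_self _ _)) hvS
  refine ⟨v0 :: l', by simp [hl'len, hclen], List.nodup_cons.mpr ⟨hv0l', hl'nd⟩, hl'ch, ?_, ?_, ?_⟩
  · rw [List.mem_cons, not_or]
    exact ⟨fun h => hv0v h.symm, hvl'⟩
  · intro x hx
    have : v0 = x := by simpa using hx
    rw [← this]; exact hv0S0
  · intro x hx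
    apply hSS1
    apply hl'last
    rw [List.getLast?_cons] at hx
    cases hcl : l'.getLast? with
    | none => exact absurd (List.getLast?_eq_none_iff.mp hcl) hl'ne
    | some a =>
      rw [hcl] at hx
      simpa using hx

end Pool.Agent.Lib.MP_779bc2_co
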