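import Pool.Agent.Lib.MP_779bc2_co.I.Defs

/-! # MP_779bc2_co, Part I: calculus of `prs` (proved) -/

set_option autoImplicit false

namespace Pool.Agent.Lib.MP_779bc2_co

open Finset

section

variable {W : Type}

theorem idc_nonneg (G : W → W → Prop) (u w : W) : 0 ≤ idc G u w := by
  unfold idc; split <;> norm_num

theorem idc_le_one (G : W → W → Prop) (u w : W) : idc G u w ≤ 1 := by
  unfold idc; split <;> norm_num

theorem prs_eq_sum (G : W → W → Prop) (A B : Finset W) : prs G A B = ∑ u ∈ A, ∑ w ∈ B, idc G u w := by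
  classical
  unfold prs idc
  rw [← Finset.sum_product', Finset.card_filter]
  push_cast
  rfl

theorem prs_nonneg (G : W → W → Prop) (A B : Finset W) : 0 ≤ prs G A B := by
  unfold prs; positivity

theorem prs_le (G : W → W → Prop) (A B : Finset W) : prs G A B ≤ A.card * B.card := by
  classical
  unfold prs
  have := Finset.card_filter_le (A ×ˢ B) (fun q => G q.1 q.2)
  rw [Finset.card_product] at this
  exact_mod_cast this

/-- monotonicity in the relation -/
theorem prs_mono {G H : W → W → Prop} {A B : Finset W} (h : ∀ u ∈ A, ∀ w ∈ B, G u w → H u w) :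
    prs G A B ≤ prs H A B := by
  classical
  unfold prs
  have : ((A ×ˢ B).filter (fun q => G q.1 q.2)) ⊆ ((A ×ˢ B).filter (fun q => H q.1 q.2)) := by
    intro q hq
    rw [Finset.mem_filter, Finset.mem_product] at hq ⊢
    exact ⟨hq.1, h _ hq.1.1 _ hq.1.2 hq.2⟩
  exact_mod_cast Finset.card_le_card this

/-- monotonicity in the sets -/
theorem prs_mono_set {G : W → W → Prop} {A A' B B' : Finset W} (hA : A ⊆ A') (hB : B ⊆ B') :
    prs G A B ≤ prs G A' B' := by
  classical
  unfold prs
  have : ((A ×ˢ B).filter (fun q => G q.1 q.2)) ⊆ ((A' ×ˢ B').filter (fun q => G q.1 q.2)) := by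
    intro q hq
    rw [Finset.mem_filter, Finset.mem_product] at hq ⊢
    exact ⟨⟨hA hq.1.1, hB hq.1.2⟩, hq.2⟩
  exact_mod_cast Finset.card_le_card this

/-- subadditivity in the relation -/
theorem prs_or_le (G H : W → W → Prop) (A B : Finset W) :
    prs (fun u w => G u w ∨ H u w) A B ≤ prs G A B + prs H A B := by
  rw [prs_eq_sum, prs_eq_sum, prs_eq_sum, ← Finset.sum_add_distrib]
  refine Finset.sum_le_sum fun u _ => ?_
  rw [← Finset.sum_add_distrib]
  refine Finset.sum_le_sum fun w _ => ?_
  unfold idc
  by_cases h1 : G u w <;> by_cases h2 : H u w <;> simp [h1, h2]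

open Classical in
/-- the sum of the degrees -/
theorem prs_eq_sum_card (G : W → W → Prop) (A B : Finset W) :
    prs G A B = ∑ u ∈ A, ((B.filter (fun w => G u w)).card : ℝ) := by
  rw [prs_eq_sum]
  refine Finset.sum_congr rfl fun u _ => ?_
  unfold idc
  rw [Finset.card_filter]
  push_cast
  rfl

theorem prs_comm (G : W → W → Prop) (A B : Finset W) : prs G A B = prs (fun u w => G w u) B A := by
  rw [prs_eq_sum, prs_eq_sum, Finset.sum_comm]
  rfl

theorem prs_comm_of_symm {G : W → W → Prop} (hG : ∀ u w, G u w → G w u) (A B : Finset W) :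
    prs G A B = prs G B A := by
  rw [prs_comm]
  congr 1
  funext u w
  exact propext ⟨hG _ _, hG _ _⟩

theorem prs_empty_left (G : W → W → Prop) (B : Finset W) : prs G ∅ B = 0 := by
  rw [prs_eq_sum]; simp

theorem prs_empty_right (G : W → W → Prop) (A : Finset W) : prs G A ∅ = 0 := by
  rw [prs_eq_sum]; simp

end

section

variable {W : Type} [Fintype W] {ι : Type}

theorem mem_clu {q : W → ι} {i : ι} {w : W} : w ∈ clu q i ↔ q w = i := by
  classical
  unfold clu; simp

theorem mem_clu_self (q : W → ι) (w : W) : w ∈ clu q (q w) := mem_clu.2 rfl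

/-- a double sum over the vertices is the sum over the pairs of labels of the double sums over the clusters -/
theorem sum_eq_sum_clu [Fintype ι] (q : W → ι) (f : W → W → ℝ) :
    ∑ u, ∑ w, f u w = ∑ i, ∑ j, ∑ u ∈ clu q i, ∑ w ∈ clu q j, f u w := by
  classical
  have h1 : ∀ g : W → ℝ, ∑ u, g u = ∑ i, ∑ u ∈ clu q i, g u := by
    intro g
    have := Finset.sum_fiberwise (univ : Finset W) q g
    rw [← this]
    rfl
  rw [h1]
  refine Finset.sum_congr rfl fun i _ => ?_
  rw [Finset.sum_comm]
  rw [h1]
  refine Finset.sum_congr rfl fun j _ => ?_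
  rw [Finset.sum_comm]

/-- the sum of the cluster sizes is `N` -/
theorem sum_card_clu [Fintype ι] (q : W → ι) : ∑ i, ((clu q i).card : ℝ) = Fintype.card W := by
  classical
  have h : ∑ i, (clu q i).card = Fintype.card W := by
    have := Finset.card_eq_sum_card_fiberwise (s := (univ : Finset W)) (t := (univ : Finset ι)) (f := q)
      (fun _ _ => Finset.mem_coe.2 (Finset.mem_univ _))
    rw [← Finset.card_univ, this]
    refine Finset.sum_congr rfl fun i _ => ?_
    unfold clu
    congr 1
  exact_mod_cast h

end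

end Pool.Agent.Lib.MP_779bc2_co
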