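import Pool.Agent.Lib.MP_779bc2_co.I.Prs

/-! # Row I-R1: the energy of a labelling (orthogonality, Pythagoras, bounds) -/

set_option autoImplicit false

namespace Pool.Agent.Lib.MP_779bc2_co

open Finset

variable {W : Type} [Fintype W] {ι ι' : Type} [Fintype ι] [Fintype ι']

/-- densities lie in `[0, 1]` (`prs_nonneg`, `prs_le`; `div_le_one_of_le₀`) -/
theorem dn_nonneg (G : W → W → Prop) (q : W → ι) (i j : ι) : 0 ≤ dn G q i j := by
  unfold dn
  exact div_nonneg (prs_nonneg _ _ _) (by positivity)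

theorem dn_le_one (G : W → W → Prop) (q : W → ι) (i j : ι) : dn G q i j ≤ 1 := by
  unfold dn
  exact div_le_one_of_le₀ (prs_le _ _ _) (by positivity)

/-- **Orthogonality.** By `sum_eq_sum_clu` the sum equals `∑_{i,j} α i j ∑_{u ∈ V_i, w ∈ V_j} (idc G u w - dn G q i j)` (for `u ∈ V_i` we have
`q u = i`, `mem_clu`), and the inner sum is `prs G V_i V_j - |V_i| |V_j| dn G q i j = 0` (`prs_eq_sum`; if `V_i` or `V_j` is empty it is an
empty sum, otherwise `|V_i| |V_j| ≠ 0` and `dn = prs / (|V_i| |V_j|)`). -/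
theorem en_orth (G : W → W → Prop) (q : W → ι) (α : ι → ι → ℝ) :
    ∑ u, ∑ w, (idc G u w - dn G q (q u) (q w)) * α (q u) (q w) = 0 := by
  rw [sum_eq_sum_clu q]
  refine Finset.sum_eq_zero fun i _ => Finset.sum_eq_zero fun j _ => ?_
  have h1 : ∑ u ∈ clu q i, ∑ w ∈ clu q j, (idc G u w - dn G q (q u) (q w)) * α (q u) (q w)
      = ∑ u ∈ clu q i, ∑ w ∈ clu q j, (idc G u w - dn G q i j) * α i j := by
    refine Finset.sum_congr rfl fun u hu => Finset.sum_congr rfl fun w hw => ?_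
    rw [mem_clu.1 hu, mem_clu.1 hw]
  rw [h1]
  simp only [← Finset.sum_mul]
  have h2 : ∑ u ∈ clu q i, ∑ w ∈ clu q j, (idc G u w - dn G q i j) = 0 := by
    simp only [Finset.sum_sub_distrib, ← prs_eq_sum, Finset.sum_const, nsmul_eq_mul]
    unfold dn
    rcases Finset.eq_empty_or_nonempty (clu q i) with he | he
    · rw [he, prs_empty_left]; simp
    · rcases Finset.eq_empty_or_nonempty (clu q j) with he' | he'
      · rw [he', prs_empty_right]; simp
      · have h3 : ((clu q i).card : ℝ) ≠ 0 := by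
          exact_mod_cast (Finset.card_pos.2 he).ne'
        have h4 : ((clu q j).card : ℝ) ≠ 0 := by
          exact_mod_cast (Finset.card_pos.2 he').ne'
        field_simp
        ring
  rw [h2, zero_mul]

/-- **Orthogonality on a union of clusters.** Apply `en_orth` with `α i j = 1` if `V_i ⊆ A` and `V_j ⊆ B` and `0` otherwise. Here `A` and `B` are
unions of clusters: if `u ∈ A` then `V_{q u} ⊆ A`; so for all `u, w` we have `α (q u) (q w) = 1` iff `u ∈ A` and `w ∈ B` (if `V_{q u} ⊆ A` then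
`u ∈ A` because `u ∈ V_{q u}`). -/
theorem en_orth_set (G : W → W → Prop) (q : W → ι) (A B : Finset W)
    (hA : ∀ u u', q u = q u' → u ∈ A → u' ∈ A) (hB : ∀ u u', q u = q u' → u ∈ B → u' ∈ B) :
    ∑ u ∈ A, ∑ w ∈ B, dn G q (q u) (q w) = prs G A B := by
  classical
  have hα := en_orth G q (fun i j => if (clu q i ⊆ A ∧ clu q j ⊆ B) then (1 : ℝ) else 0)
  have key : ∀ u w : W, (clu q (q u) ⊆ A ∧ clu q (q w) ⊆ B) ↔ (u ∈ A ∧ w ∈ B) := by
    intro u w
    constructor
    · rintro ⟨h1, h2⟩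
      exact ⟨h1 (mem_clu_self q u), h2 (mem_clu_self q w)⟩
    · rintro ⟨h1, h2⟩
      exact ⟨fun x hx => hA u x (mem_clu.1 hx).symm h1, fun x hx => hB w x (mem_clu.1 hx).symm h2⟩
  simp only [key] at hα
  have h2 : ∀ f : W → W → ℝ, ∑ u, ∑ w, f u w * (if (u ∈ A ∧ w ∈ B) then (1 : ℝ) else 0)
      = ∑ u ∈ A, ∑ w ∈ B, f u w := by
    intro f
    rw [← Finset.sum_subset (Finset.subset_univ A)]
    · refine Finset.sum_congr rfl fun u hu => ?_
      rw [← Finset.sum_subset (Finset.subset_univ B)]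
      · refine Finset.sum_congr rfl fun w hw => ?_
        rw [if_pos ⟨hu, hw⟩, mul_one]
      · intro w _ hw
        rw [if_neg (fun h => hw h.2), mul_zero]
    · intro u _ hu
      refine Finset.sum_eq_zero fun w _ => ?_
      rw [if_neg (fun h => hu h.1), mul_zero]
  rw [h2] at hα
  simp only [Finset.sum_sub_distrib, ← prs_eq_sum] at hα
  linarith

/-- **Pythagoras.** `q'` refines `q`. Write `f' = dn G q' (q' u) (q' w)`, `f = dn G q (q u) (q w)`. By `en_orth` for `q` with `α = dn G q` we get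
`∑ (1_G - f) f = 0`; by `en_orth` for `q'` with `α i' j' = dn G q (g i') (g j')` we get `∑ (1_G - f') f = 0`. Hence `∑ (f' - f) f = 0` and
`∑ f'² - ∑ f² = ∑ (f' - f)² + 2 ∑ (f' - f) f = ∑ (f' - f)²`. -/
theorem en_refine (G : W → W → Prop) (q : W → ι) (q' : W → ι') (g : ι' → ι) (hg : ∀ w, q w = g (q' w)) :
    en G q' - en G q = ∑ u, ∑ w, (dn G q' (q' u) (q' w) - dn G q (q u) (q w)) ^ 2 := by
  have h1 := en_orth G q (dn G q)
  have h2 := en_orth G q' (fun i j => dn G q (g i) (g j))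
  simp only [← hg] at h2
  unfold en
  have h3 : ∑ u, ∑ w, (dn G q' (q' u) (q' w) - dn G q (q u) (q w)) ^ 2
      = (∑ u, ∑ w, dn G q' (q' u) (q' w) ^ 2) - (∑ u, ∑ w, dn G q (q u) (q w) ^ 2)
        + 2 * ((∑ u, ∑ w, (idc G u w - dn G q' (q' u) (q' w)) * dn G q (q u) (q w))
          - ∑ u, ∑ w, (idc G u w - dn G q (q u) (q w)) * dn G q (q u) (q w)) := by
    simp only [← Finset.sum_sub_distrib, Finset.mul_sum, ← Finset.sum_add_distrib]
    refine Finset.sum_congr rfl fun u _ => Finset.sum_congr rfl fun w _ => ?_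
    ring
  rw [h3, h1, h2]
  ring

/-- `dn ≤ 1`. -/
theorem en_le (G : W → W → Prop) (q : W → ι) : en G q ≤ (Fintype.card W : ℝ) ^ 2 := by
  unfold en
  calc ∑ u, ∑ w, (dn G q (q u) (q w)) ^ 2 ≤ ∑ _u : W, ∑ _w : W, (1 : ℝ) := by
        refine Finset.sum_le_sum fun u _ => Finset.sum_le_sum fun w _ => ?_
        exact pow_le_one₀ (dn_nonneg _ _ _ _) (dn_le_one _ _ _ _)
    _ = (Fintype.card W : ℝ) ^ 2 := by
        simp only [Finset.sum_const, Finset.card_univ, nsmul_eq_mul, mul_one]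
        ring

theorem en_nonneg (G : W → W → Prop) (q : W → ι) : 0 ≤ en G q := by
  unfold en
  exact Finset.sum_nonneg fun u _ => Finset.sum_nonneg fun w _ => sq_nonneg _

end Pool.Agent.Lib.MP_779bc2_co
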