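import Pool.Agent.Lib.MP_779bc2_co.I.R1Energy

/-! # Row I-R2: energy increment from one irregular pair -/

set_option autoImplicit false

namespace Pool.Agent.Lib.MP_779bc2_co

open Finset

variable {W : Type} [Fintype W] {ι ι' : Type} [Fintype ι] [Fintype ι']

/-- Write `Δ u w = dn G q' (q' u) (q' w) - dn G q (q u) (q w)`. By `en_orth_set` for `q'`,
`∑_{u ∈ A, w ∈ B} Δ u w = prs G A B - dn G q i j |A| |B|` (for `u ∈ A ⊆ V_i`, `w ∈ B ⊆ V_j` we have `q u = i`, `q w = j`). So the square of this sum is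
larger than `ε² (|V_i| |V_j|)²`, and by Cauchy–Schwarz (`inner_mul_le_norm_mul_norm` or `Finset.sum_mul_sq_le_sq_mul_sq` /
`sq_sum_le_card_mul_sum_sq` applied on `A ×ˢ B`) it is at most `|A| |B| ∑_{A × B} Δ² ≤ |V_i| |V_j| ∑_{V_i × V_j} Δ²`. Divide by `|V_i| |V_j|`
(if it is `0` the claim is trivial because the right-hand side is a sum of squares). -/
theorem en_pair (G : W → W → Prop) (q : W → ι) (q' : W → ι') (g : ι' → ι) (hg : ∀ w, q w = g (q' w))
    (ε : ℝ) (hε : 0 < ε) (i j : ι) (A B : Finset W) (hA : A ⊆ clu q i) (hB : B ⊆ clu q j)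
    (hA' : ∀ u u', q' u = q' u' → u ∈ A → u' ∈ A) (hB' : ∀ u u', q' u = q' u' → u ∈ B → u' ∈ B)
    (h : ε * ((clu q i).card * (clu q j).card) < |prs G A B - dn G q i j * (A.card * B.card)|) :
    ε ^ 2 * ((clu q i).card * (clu q j).card) ≤
      ∑ u ∈ clu q i, ∑ w ∈ clu q j, (dn G q' (q' u) (q' w) - dn G q (q u) (q w)) ^ 2 := by
  set F : W → W → ℝ := fun u w => dn G q' (q' u) (q' w) - dn G q (q u) (q w) with hF
  set S : ℝ := ∑ u ∈ clu q i, ∑ w ∈ clu q j, (F u w) ^ 2 with hS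
  set n : ℝ := ((clu q i).card : ℝ) * ((clu q j).card : ℝ) with hn
  have hn0 : 0 ≤ n := by positivity
  have hS0 : 0 ≤ S := Finset.sum_nonneg fun u _ => Finset.sum_nonneg fun w _ => sq_nonneg _
  -- the sum over `A × B`
  have h1 : ∑ u ∈ A, ∑ w ∈ B, F u w = prs G A B - dn G q i j * (A.card * B.card) := by
    have e1 : ∑ u ∈ A, ∑ w ∈ B, F u w
        = ∑ u ∈ A, ∑ w ∈ B, dn G q' (q' u) (q' w) - ∑ u ∈ A, ∑ w ∈ B, dn G q (q u) (q w) := by
      simp only [hF, Finset.sum_sub_distrib]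
    have e2 : ∑ u ∈ A, ∑ w ∈ B, dn G q (q u) (q w) = dn G q i j * (A.card * B.card) := by
      have : ∀ u ∈ A, ∀ w ∈ B, dn G q (q u) (q w) = dn G q i j := by
        intro u hu w hw
        rw [mem_clu.1 (hA hu), mem_clu.1 (hB hw)]
      rw [Finset.sum_congr rfl fun u hu => Finset.sum_congr rfl fun w hw => this u hu w hw]
      simp only [Finset.sum_const, nsmul_eq_mul]
      ring
    rw [e1, e2, en_orth_set G q' A B hA' hB']
  -- Cauchy–Schwarz
  have h2 : (∑ u ∈ A, ∑ w ∈ B, F u w) ^ 2 ≤ (A.card * B.card : ℝ) * ∑ u ∈ A, ∑ w ∈ B, (F u w) ^ 2 := by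
    have := sq_sum_le_card_mul_sum_sq (s := A ×ˢ B) (f := fun p : W × W => F p.1 p.2)
    rw [Finset.sum_product, Finset.sum_product, Finset.card_product] at this
    push_cast at this
    exact this
  have h3 : ∑ u ∈ A, ∑ w ∈ B, (F u w) ^ 2 ≤ S := by
    have e1 : ∑ u ∈ A, ∑ w ∈ B, (F u w) ^ 2 ≤ ∑ u ∈ A, ∑ w ∈ clu q j, (F u w) ^ 2 :=
      Finset.sum_le_sum fun u _ => Finset.sum_le_sum_of_subset_of_nonneg hB fun w _ _ => sq_nonneg _
    have e2 : ∑ u ∈ A, ∑ w ∈ clu q j, (F u w) ^ 2 ≤ S :=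
      Finset.sum_le_sum_of_subset_of_nonneg hA fun u _ _ => Finset.sum_nonneg fun w _ => sq_nonneg _
    exact e1.trans e2
  have h4 : (A.card * B.card : ℝ) ≤ n := by
    have a1 : (A.card : ℝ) ≤ (clu q i).card := by exact_mod_cast Finset.card_le_card hA
    have a2 : (B.card : ℝ) ≤ (clu q j).card := by exact_mod_cast Finset.card_le_card hB
    exact mul_le_mul a1 a2 (by positivity) (by positivity)
  have h5 : (ε * n) ^ 2 ≤ n * S := by
    have e1 : (ε * n) ^ 2 ≤ (∑ u ∈ A, ∑ w ∈ B, F u w) ^ 2 := by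
      rw [h1, ← sq_abs (prs G A B - dn G q i j * (A.card * B.card))]
      exact pow_le_pow_left₀ (by positivity) h.le 2
    have e2 : (A.card * B.card : ℝ) * ∑ u ∈ A, ∑ w ∈ B, (F u w) ^ 2 ≤ n * S :=
      mul_le_mul h4 h3 (Finset.sum_nonneg fun u _ => Finset.sum_nonneg fun w _ => sq_nonneg _) hn0
    exact e1.trans (h2.trans e2)
  rcases hn0.eq_or_lt with h0 | h0
  · rw [← h0]; simpa using hS0
  · have : n * (ε ^ 2 * n) ≤ n * S := by nlinarith [h5]
    exact le_of_mul_le_mul_left this h0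

end Pool.Agent.Lib.MP_779bc2_co
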