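import Pool.Agent.Lib.MP_779bc2_co.I.R2Pair

/-! # Row I-R3: one refinement step -/

set_option autoImplicit false

namespace Pool.Agent.Lib.MP_779bc2_co

open Finset

/-- the number of labels after one refinement step -/
def stepCard (k : ℕ) : ℕ := k * ((4 ^ k) ^ k) ^ 2

variable {W : Type} [Fintype W] {ι : Type} [Fintype ι]

open Classical in
/-- `irw` as a sum over pairs of clusters -/
theorem R3Step_irw (G : W → W → Prop) (ε : ℝ) (q : W → ι) :
    irw G ε q = ∑ i, ∑ j, (if ¬ Reg G ε (clu q i) (clu q j) then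
      ((clu q i).card : ℝ) * (clu q j).card else 0) := by
  unfold irw
  rw [prs_eq_sum, sum_eq_sum_clu q]
  refine Finset.sum_congr rfl fun i _ => Finset.sum_congr rfl fun j _ => ?_
  have h1 : ∀ u ∈ clu q i, ∀ w ∈ clu q j,
      idc (fun u w => ¬ Reg G ε (clu q (q u)) (clu q (q w))) u w =
        (if ¬ Reg G ε (clu q i) (clu q j) then (1 : ℝ) else 0) := by
    intro u hu w hw
    rw [mem_clu] at hu hw
    unfold idc
    subst hu
    subst hw
    by_cases hr : Reg G ε (clu q (q u)) (clu q (q w))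
    · simp [hr]
    · simp [hr]
  rw [Finset.sum_congr rfl fun u hu => Finset.sum_congr rfl fun w hw => h1 u hu w hw]
  split_ifs with h
  · simp
  · simp

/-- the pairs of clusters contribute to the energy increment -/
theorem R3Step_incr (G : W → W → Prop) {ι' : Type} [Fintype ι'] (q : W → ι) (q' : W → ι') (g : ι' → ι)
    (hg : ∀ w, q w = g (q' w)) (ε : ℝ) (hε : 0 < ε) (A B : ι → ι → Finset W)
    (hA : ∀ i j, A i j ⊆ clu q i) (hB : ∀ i j, B i j ⊆ clu q j)
    (hA' : ∀ i j u u', q' u = q' u' → u ∈ A i j → u' ∈ A i j)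
    (hB' : ∀ i j u u', q' u = q' u' → u ∈ B i j → u' ∈ B i j)
    (h : ∀ i j, ¬ Reg G ε (clu q i) (clu q j) →
      ε * ((clu q i).card * (clu q j).card) <
        |prs G (A i j) (B i j) - dn G q i j * ((A i j).card * (B i j).card)|) :
    ε ^ 2 * irw G ε q ≤ en G q' - en G q := by
  classical
  rw [en_refine G q q' g hg, R3Step_irw, sum_eq_sum_clu q, Finset.mul_sum]
  refine Finset.sum_le_sum fun i _ => ?_
  rw [Finset.mul_sum]
  refine Finset.sum_le_sum fun j _ => ?_
  by_cases hr : ¬ Reg G ε (clu q i) (clu q j)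
  · rw [if_pos hr]
    exact en_pair G q q' g hg ε hε i j (A i j) (B i j) (hA i j) (hB i j) (hA' i j) (hB' i j) (h i j hr)
  · rw [if_neg hr, mul_zero]
    exact Finset.sum_nonneg fun u _ => Finset.sum_nonneg fun w _ => sq_nonneg _

omit [Fintype ι] in
theorem R3Step_ex (G : W → W → Prop) (ε : ℝ) (q : W → ι) (i j : ι) :
    ∃ A B : Finset W, A ⊆ clu q i ∧ B ⊆ clu q j ∧ (¬ Reg G ε (clu q i) (clu q j) →
      ε * ((clu q i).card * (clu q j).card) <
        |prs G A B - dn G q i j * (A.card * B.card)|) := by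
  by_cases hr : Reg G ε (clu q i) (clu q j)
  · exact ⟨∅, ∅, Finset.empty_subset _, Finset.empty_subset _, fun h => absurd hr h⟩
  · have hr' := hr
    unfold Reg at hr'
    push Not at hr'
    obtain ⟨A, hA, B, hB, h⟩ := hr'
    exact ⟨A, B, hA, hB, fun _ => h⟩

/-- If `q` is not regular for the colour `κ₀` then it has a refinement with larger energy.

Proof. Suppose `ε N² < irw (G κ₀) ε q`. For `κ`, `i`, `j` choose (classically) `A κ i j ⊆ V_i`, `B κ i j ⊆ V_j` with
`ε |V_i| |V_j| < |prs (G κ) A B - dn |A| |B||` if `(i, j)` is not `Reg` for `G κ`, and `A κ i j = B κ i j = ∅` otherwise. Put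
`ι' = ι × (Bool → ι → ι → Bool × Bool)` (its cardinality is `stepCard (card ι)`), `q' u = (q u, fun κ i j => (decide (u ∈ A κ i j), decide (u ∈ B κ i j)))`,
`g = Prod.fst`. The sets `A κ i j`, `B κ i j` are unions of `q'`-classes. By `en_refine` (a sum of squares) both energies do not decrease, and for `κ₀`
`en q' - en q = ∑_{i,j} ∑_{V_i × V_j} Δ²` (`sum_eq_sum_clu`) `≥ ∑_{(i,j) irregular} ε² |V_i| |V_j|` (`en_pair`) `= ε² irw (G κ₀) ε q`
(`irw` is `∑_u ∑_w` of the indicator of `¬ Reg (V_{q u}) (V_{q w})`, use `prs_eq_sum` and `sum_eq_sum_clu` again) `≥ ε³ N²`. -/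
theorem reg_step (G : Bool → W → W → Prop) (q : W → ι) (ε : ℝ) (hε : 0 < ε) :
    (∀ κ, irw (G κ) ε q ≤ ε * (Fintype.card W : ℝ) ^ 2) ∨
      ∃ (ι' : Type) (_ : Fintype ι') (q' : W → ι') (g : ι' → ι), (∀ w, q w = g (q' w)) ∧
        Fintype.card ι' = stepCard (Fintype.card ι) ∧
        en (G false) q + en (G true) q + ε ^ 3 * (Fintype.card W : ℝ) ^ 2 ≤ en (G false) q' + en (G true) q' := by
  classical
  by_cases hreg : ∀ κ, irw (G κ) ε q ≤ ε * (Fintype.card W : ℝ) ^ 2
  · exact Or.inl hreg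
  right
  push Not at hreg
  obtain ⟨κ₀, hκ₀⟩ := hreg
  choose A B hA hB hAB using fun κ i j => R3Step_ex (G κ) ε q i j
  set q' : W → ι × (Bool → ι → ι → Bool × Bool) := fun u =>
    (q u, fun κ i j => (decide (u ∈ A κ i j), decide (u ∈ B κ i j))) with hq'
  have hg : ∀ w, q w = Prod.fst (q' w) := fun w => rfl
  have hA' : ∀ κ i j u u', q' u = q' u' → u ∈ A κ i j → u' ∈ A κ i j := by
    intro κ i j u u' h hu
    have h1 : (q' u).2 κ i j = (q' u').2 κ i j := by rw [h]
    simp only [hq', Prod.mk.injEq, decide_eq_decide] at h1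
    exact h1.1.1 hu
  have hB' : ∀ κ i j u u', q' u = q' u' → u ∈ B κ i j → u' ∈ B κ i j := by
    intro κ i j u u' h hu
    have h1 : (q' u).2 κ i j = (q' u').2 κ i j := by rw [h]
    simp only [hq', Prod.mk.injEq, decide_eq_decide] at h1
    exact h1.2.1 hu
  have hinc : ∀ κ, ε ^ 2 * irw (G κ) ε q ≤ en (G κ) q' - en (G κ) q := fun κ =>
    R3Step_incr (G κ) q q' Prod.fst hg ε hε (A κ) (B κ) (hA κ) (hB κ) (hA' κ) (hB' κ) (hAB κ)
  have hirw : ∀ κ, 0 ≤ irw (G κ) ε q := fun κ => prs_nonneg _ _ _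
  have h0 : ∀ κ, 0 ≤ en (G κ) q' - en (G κ) q := fun κ =>
    (mul_nonneg (by positivity) (hirw κ)).trans (hinc κ)
  have h1 : ε ^ 3 * (Fintype.card W : ℝ) ^ 2 ≤ en (G κ₀) q' - en (G κ₀) q := by
    refine le_trans ?_ (hinc κ₀)
    have := mul_le_mul_of_nonneg_left hκ₀.le (by positivity : (0 : ℝ) ≤ ε ^ 2)
    calc ε ^ 3 * (Fintype.card W : ℝ) ^ 2 = ε ^ 2 * (ε * (Fintype.card W : ℝ) ^ 2) := by ring
      _ ≤ _ := this
  refine ⟨ι × (Bool → ι → ι → Bool × Bool), inferInstance, q', Prod.fst, hg, ?_, ?_⟩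
  · simp [stepCard, Fintype.card_prod]
  · have hf := h0 false
    have ht := h0 true
    cases κ₀ <;> linarith

end Pool.Agent.Lib.MP_779bc2_co
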