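import Pool.Agent.Lib.MP_779bc2_co.I.Prs

/-! # Row I-R4: the initial partition, and relabelling with `Fin K` -/

set_option autoImplicit false

namespace Pool.Agent.Lib.MP_779bc2_co

open Finset

variable {W : Type} [Fintype W]

/-- a partition into `K0` parts of nearly equal sizes: take `e : W ≃ Fin N` (`Fintype.equivFin`) and `q w = (e w) mod K0`; the number of `x < N` with
`x ≡ r (mod K0)` is at most `N / K0 + 1` (`Nat.count_modEq_card`, or: it is the image of `range (N / K0 + 1)` under `t ↦ K0 t + r`). -/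
theorem init_partition (K0 : ℕ) (hK : 0 < K0) :
    ∃ q : W → Fin K0, ∀ i, (K0 : ℝ) * (clu q i).card ≤ Fintype.card W + K0 := by
  classical
  let e := Fintype.equivFin W
  refine ⟨fun w => ⟨(e w : ℕ) % K0, Nat.mod_lt _ hK⟩, fun i => ?_⟩
  have hcard : (clu (fun w => (⟨(e w : ℕ) % K0, Nat.mod_lt _ hK⟩ : Fin K0)) i).card
      ≤ Fintype.card W / K0 + 1 := by
    rw [← card_range (Fintype.card W / K0 + 1)]
    apply card_le_card_of_injOn (fun w => (e w : ℕ) / K0)
    · intro w _
      simp only [coe_range, Set.mem_Iio]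
      exact Nat.lt_succ_of_le (Nat.div_le_div_right (e w).2.le)
    · intro w hw w' hw' h
      have h1 := congrArg Fin.val (mem_clu.1 (Finset.mem_coe.1 hw))
      have h2 := congrArg Fin.val (mem_clu.1 (Finset.mem_coe.1 hw'))
      simp only at h h1 h2
      apply e.injective
      apply Fin.ext
      rw [← Nat.div_add_mod (e w : ℕ) K0, ← Nat.div_add_mod (e w' : ℕ) K0, h, h1, h2]
  have h3 : K0 * (clu (fun w => (⟨(e w : ℕ) % K0, Nat.mod_lt _ hK⟩ : Fin K0)) i).card
      ≤ Fintype.card W + K0 := by
    calc K0 * (clu (fun w => (⟨(e w : ℕ) % K0, Nat.mod_lt _ hK⟩ : Fin K0)) i).card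
        ≤ K0 * (Fintype.card W / K0 + 1) := Nat.mul_le_mul_left _ hcard
      _ = K0 * (Fintype.card W / K0) + K0 := by ring
      _ ≤ Fintype.card W + K0 := Nat.add_le_add_right (Nat.mul_div_le _ _) _
  exact_mod_cast h3

/-- relabelling along an injection `e` of the label type (`Function.Embedding.nonempty_of_card_le` or `Fintype.truncEquivFin` composed with
`Fin.castLE`): the cluster of `w` is unchanged, `clu (e ∘ q) (e (q w)) = clu q (q w)`; the clusters of labels outside the image are empty. -/
theorem relabel {ι : Type} [Fintype ι] (q : W → ι) (K : ℕ) (hK : Fintype.card ι ≤ K) (G : Bool → W → W → Prop)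
    (ε c : ℝ) (hc : 0 ≤ c) (h1 : ∀ i, ((clu q i).card : ℝ) ≤ c) :
    ∃ q' : W → Fin K, (∀ i, ((clu q' i).card : ℝ) ≤ c) ∧ ∀ κ, irw (G κ) ε q' = irw (G κ) ε q := by
  classical
  obtain ⟨e⟩ : Nonempty (ι ↪ Fin K) :=
    Function.Embedding.nonempty_of_card_le (by rw [Fintype.card_fin]; exact hK)
  have hclu : ∀ i, clu (fun w => e (q w)) (e i) = clu q i := by
    intro i
    ext w
    rw [mem_clu, mem_clu]
    exact e.injective.eq_iff
  refine ⟨fun w => e (q w), fun k => ?_, fun κ => ?_⟩
  · by_cases hk : ∃ i, e i = k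
    · obtain ⟨i, rfl⟩ := hk
      rw [hclu]
      exact h1 i
    · have : clu (fun w => e (q w)) k = ∅ := by
        ext w
        rw [mem_clu]
        simp only [notMem_empty, iff_false]
        exact fun h => hk ⟨q w, h⟩
      rw [this]
      simpa using hc
  · unfold irw
    simp only [hclu]

end Pool.Agent.Lib.MP_779bc2_co
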