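import Pool.Agent.Lib.MP_779bc2_co.I.R3Step
import Pool.Agent.Lib.MP_779bc2_co.I.R4Init

/-! # Row I-R5: the regularity lemma for two graphs -/

set_option autoImplicit false

namespace Pool.Agent.Lib.MP_779bc2_co

open Finset

theorem r5_stepCard_mono {a b : ℕ} (h : a ≤ b) (hb : 0 < b) : stepCard a ≤ stepCard b := by
  unfold stepCard
  have h1 : 4 ^ a ≤ 4 ^ b := Nat.pow_le_pow_right (by norm_num) h
  have h2 : (4 ^ a) ^ a ≤ (4 ^ b) ^ b :=
    le_trans (Nat.pow_le_pow_left h1 a) (Nat.pow_le_pow_right (by positivity) h)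
  exact Nat.mul_le_mul h (Nat.pow_le_pow_left h2 2)

theorem r5_clu_card {W : Type} [Fintype W] {ι ι' : Type} (q : W → ι) (q' : W → ι') (g : ι' → ι)
    (hg : ∀ w, q w = g (q' w)) (c : ℝ) (hc : ∀ i, ((clu q i).card : ℝ) ≤ c) (i : ι') :
    ((clu q' i).card : ℝ) ≤ c := by
  classical
  refine le_trans ?_ (hc (g i))
  have hsub : clu q' i ⊆ clu q (g i) := by
    intro w hw
    unfold clu at hw ⊢
    rw [Finset.mem_filter] at hw ⊢
    exact ⟨Finset.mem_univ _, by rw [hg w, hw.2]⟩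
  exact_mod_cast Finset.card_le_card hsub

/-- Iteration. Claim, by induction on `t`: for every `K0` there is `K ≥ K0` such that for all `W`, `G`, all label types `ι` with `card ι ≤ K0`, all `q : W → ι` with
clusters of size `≤ c` and `2 N² ≤ en (G false) q + en (G true) q + t ε³ N²` there is a labelling `q'` with at most `K` labels, clusters of size `≤ c`
and `irw (G κ) ε q' ≤ ε N²` for both `κ`. `t = 0`: by `reg_step` either `q` works or some `q'` has total energy `≥ 2 N² + ε³ N² > 2 N²`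
(`N ≥ 1`), contradicting `en_le`. `t + 1`: `q` works or apply the induction hypothesis (for `K0' = stepCard K0`; `stepCard` is monotone; the clusters
of `q'` are contained in clusters of `q` because `q = g ∘ q'`) to `q'`. -/
theorem regularity_iter (ε : ℝ) (hε : 0 < ε) (t : ℕ) : ∀ K0 : ℕ, ∃ K : ℕ, K0 ≤ K ∧
    ∀ (W : Type) [Fintype W] [Nonempty W] (G : Bool → W → W → Prop) (ι : Type) [Fintype ι] (q : W → ι) (c : ℝ),
      Fintype.card ι ≤ K0 → (∀ i, ((clu q i).card : ℝ) ≤ c) →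
      2 * (Fintype.card W : ℝ) ^ 2 ≤ en (G false) q + en (G true) q + t * (ε ^ 3 * (Fintype.card W : ℝ) ^ 2) →
      ∃ (ι' : Type) (_ : Fintype ι') (q' : W → ι'), Fintype.card ι' ≤ K ∧ (∀ i, ((clu q' i).card : ℝ) ≤ c) ∧
        ∀ κ, irw (G κ) ε q' ≤ ε * (Fintype.card W : ℝ) ^ 2 := by
  induction t with
  | zero =>
    intro K0
    refine ⟨K0, le_rfl, ?_⟩
    intro W _ _ G ι _ q c hcard hc hen
    rcases reg_step G q ε hε with h | ⟨ι', _, q', g, hg, hcard', hen'⟩
    · exact ⟨ι, inferInstance, q, hcard, hc, h⟩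
    · exfalso
      have hN : (0 : ℝ) < Fintype.card W := by exact_mod_cast Fintype.card_pos
      have h1 := en_le (G false) q'
      have h2 := en_le (G true) q'
      have h3 : 0 < ε ^ 3 * (Fintype.card W : ℝ) ^ 2 := by positivity
      simp only [Nat.cast_zero, zero_mul, add_zero] at hen
      linarith
  | succ t ih =>
    intro K0
    obtain ⟨K, hK, hmain⟩ := ih (max K0 (stepCard (K0 + 1)))
    refine ⟨K, le_trans (le_max_left _ _) hK, ?_⟩
    intro W _ _ G ι _ q c hcard hc hen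
    rcases reg_step G q ε hε with h | ⟨ι', _, q', g, hg, hcard', hen'⟩
    · exact ⟨ι, inferInstance, q, le_trans hcard (le_trans (le_max_left _ _) hK), hc, h⟩
    · refine hmain W G ι' q' c ?_ (r5_clu_card q q' g hg c hc) ?_
      · rw [hcard']
        exact le_trans (r5_stepCard_mono (le_trans hcard (Nat.le_succ K0)) (Nat.succ_pos K0))
          (le_max_right _ _)
      · push_cast at hen
        nlinarith [hen, hen']

/-- **The regularity lemma for two graphs.** Take `K0 = ⌈1/ε⌉`, `q` from `init_partition` (clusters of size `≤ N / K0 + 1 ≤ ε N + 1`), `t = ⌈2/ε³⌉` in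
`regularity_iter` (`en_nonneg`), then `relabel`. (`K > 0` because `K0 ≤ K`.) -/
theorem regularity (ε : ℝ) (hε : 0 < ε) : ∃ K : ℕ, 0 < K ∧
    ∀ (W : Type) [Fintype W] [Nonempty W] (G : Bool → W → W → Prop),
      ∃ q : W → Fin K, (∀ i, ((clu q i).card : ℝ) ≤ ε * Fintype.card W + 1) ∧
        ∀ κ, irw (G κ) ε q ≤ ε * (Fintype.card W : ℝ) ^ 2 := by
  set K0 : ℕ := ⌈1 / ε⌉₊ + 1 with hK0
  have hK0pos : 0 < K0 := Nat.succ_pos _
  obtain ⟨K, hK, hmain⟩ := regularity_iter ε hε ⌈2 / ε ^ 3⌉₊ K0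
  refine ⟨K, lt_of_lt_of_le hK0pos hK, ?_⟩
  intro W _ _ G
  obtain ⟨q, hq⟩ := init_partition (W := W) K0 hK0pos
  have hN : (0 : ℝ) < Fintype.card W := by exact_mod_cast Fintype.card_pos
  have hK0' : (0 : ℝ) < K0 := by exact_mod_cast hK0pos
  have hεK : 1 ≤ ε * K0 := by
    have h1 : 1 / ε ≤ (K0 : ℝ) := by
      rw [hK0]
      push_cast
      have := Nat.le_ceil (1 / ε)
      linarith
    rw [div_le_iff₀ hε] at h1
    linarith
  have hc : ∀ i, ((clu q i).card : ℝ) ≤ ε * Fintype.card W + 1 := by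
    intro i
    have h1 := hq i
    have h2 : (K0 : ℝ) * (clu q i).card ≤ K0 * (ε * Fintype.card W + 1) := by
      have h3 : (Fintype.card W : ℝ) ≤ ε * K0 * Fintype.card W := by
        nlinarith
      calc (K0 : ℝ) * (clu q i).card ≤ Fintype.card W + K0 := h1
        _ ≤ ε * K0 * Fintype.card W + K0 := by linarith
        _ = K0 * (ε * Fintype.card W + 1) := by ring
    exact le_of_mul_le_mul_left h2 hK0'
  have ht : 2 ≤ (⌈2 / ε ^ 3⌉₊ : ℝ) * ε ^ 3 := by
    have h1 := Nat.le_ceil (2 / ε ^ 3)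
    rw [div_le_iff₀ (by positivity)] at h1
    exact h1
  obtain ⟨ι', _, q', hcard, hc', hreg⟩ := hmain W G (Fin K0) q (ε * Fintype.card W + 1)
    (by simp) hc (by
      have h1 := en_nonneg (G false) q
      have h2 := en_nonneg (G true) q
      have h3 : 2 * (Fintype.card W : ℝ) ^ 2 ≤ ((⌈2 / ε ^ 3⌉₊ : ℝ) * ε ^ 3) * (Fintype.card W : ℝ) ^ 2 :=
        mul_le_mul_of_nonneg_right ht (by positivity)
      rw [mul_assoc] at h3
      linarith)
  obtain ⟨q'', h1, h2⟩ := relabel q' K hcard G ε (ε * Fintype.card W + 1) (by positivity) hc'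
  exact ⟨q'', h1, fun κ => by rw [h2]; exact hreg κ⟩

end Pool.Agent.Lib.MP_779bc2_co
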